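import Pool.Agent.MP42.R.GlobC

/-!
# Q1 from local junction certificates

`LL`: after a bounded refinement, for every spanning tree of the bands every junction has a local
certificate (`LC`) with any given type at any given tree rim.  `q1_of_LL`: this implies Q1.
-/

set_option autoImplicit false
set_option linter.unusedSectionVars false

namespace Pool.Agent.MP42R

open Pool.Agent.Helper55.UNF Pool.Agent.Helper55.UNF.GridSolid Pool.Agent.MP42G
open Pool.Agent.MP42H Pool.Agent.MP42X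

/-! ## There is a tree band -/

/-- the height of a facet, in half units -/
def hgt (c : Fin 3 → ℤ) (d : Dir) : ℤ :=
  2 * c 2 + (if d.1 = 2 then (if d.2 then 2 else 0) else 1)

lemma shift_two (c : Fin 3 → ℤ) (w : Dir) :
    shift c w 2 = c 2 + (if w.1 = 2 then (if w.2 then 1 else -1) else 0) := by
  by_cases h : w.1 = 2
  · have := shift_same c w
    rw [h] at this
    rw [this, if_pos h]
  · rw [shift_ne _ _ (fun hc => h hc.symm), if_neg h, add_zero]

lemma hgt_step {P : GridSolid} (s : P.FSt) :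
    hgt s.stE.1.c s.stE.1.d ≤ hgt s.1.c s.1.d + 2 ∧
      hgt s.1.c s.1.d ≤ hgt s.stE.1.c s.stE.1.d + 2 := by
  have key : ∀ (c : Fin 3 → ℤ) (d e : Dir), d.1 ≠ e.1 →
      hgt (St.stepE P ⟨c, d, e⟩).c (St.stepE P ⟨c, d, e⟩).d ≤ hgt c d + 2 ∧
      hgt c d ≤ hgt (St.stepE P ⟨c, d, e⟩).c (St.stepE P ⟨c, d, e⟩).d + 2 := by
    intro c d e h0
    have h3 : ¬ (d.1 = 2 ∧ e.1 = 2) := fun h => h0 (h.1.trans h.2.symm)
    have h4 := shift_two c e
    have h5 := shift_two (shift c e) d
    have h6 : (opp e).1 = e.1 := rfl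
    have h7 : (opp e).2 = !e.2 := rfl
    unfold St.stepE
    simp only
    split_ifs with a b
    · unfold hgt
      simp only [h6, h7, h5, h4]
      by_cases hd : d.1 = 2
      · have he : ¬ e.1 = 2 := fun h => h3 ⟨hd, h⟩
        simp only [hd, he, if_true, if_false]
        split_ifs <;> omega
      · by_cases he : e.1 = 2
        · simp only [hd, he, if_true, if_false]
          rcases e with ⟨e1, e2⟩
          cases e2 <;> simp <;> omega
        · simp only [hd, he, if_true, if_false]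
          omega
    · unfold hgt
      simp only [h4]
      split_ifs <;> omega
    · unfold hgt
      simp only
      split_ifs <;> omega
  exact key s.1.c s.1.d s.1.e s.2.2

section

variable {P : GridSolid} {r j : ℕ} {hr : 0 < r} {hj : 1 ≤ j} {hj2 : j + 6 ≤ r}

/-- the plates of a refinement have heights that are multiples of `2 * r` -/
lemma plate_hgt (f : (P.refine r hr).Facet) (hf : f.1.2.1 = 2) :
    ∃ q : ℤ, hgt f.1.1 f.1.2 = 2 * (r * q) := by
  have hr' : (0 : ℤ) < r := by exact_mod_cast hr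
  obtain ⟨⟨c, d⟩, h1, h2⟩ := f
  simp only at h1 h2 hf ⊢
  obtain ⟨d1, d2⟩ := d
  simp only at hf
  subst hf
  have e1 := Int.mul_ediv_add_emod (c 2) r
  have e2 := Int.emod_lt_of_pos (c 2) hr'
  have e3 := Int.emod_nonneg (c 2) hr'.ne'
  cases d2
  · -- downwards
    have h3 : c 2 % r = 0 := by
      by_contra hne
      set c' := shift c (2, false) with hc'
      have hc2 : c' 2 = c 2 - 1 := by
        rw [hc', shift_two]; rfl
      have h4 : c' 2 % r + 1 < r := by
        rw [hc2]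
        have h5 : c 2 - 1 = (c 2 % r - 1) + r * (c 2 / r) := by omega
        rw [h5, Int.add_mul_emod_self_left, Int.emod_eq_of_lt (by omega) (by omega)]
        omega
      have h6 := mem_up (P0 := P) hr h4
      have h7 : shift c' (2, true) = c := shift_opp c (2, false)
      rw [h7] at h6
      exact h2 (h6.1 h1)
    refine ⟨c 2 / r, ?_⟩
    show 2 * c 2 + (if (2 : Fin 3) = 2 then (if false = true then 2 else 0) else 1) = _
    rw [if_pos rfl, if_neg (by decide)]
    rw [h3] at e1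
    rw [← e1]
    ring_nf
    rw [show (r : ℤ) * (c 2 / r) / r = c 2 / r from Int.mul_ediv_cancel_left _ hr'.ne']
  · have h3 : ¬ c 2 % r + 1 < r := by
      intro h4
      exact h2 ((mem_up (P0 := P) hr h4).2 h1)
    refine ⟨c 2 / r + 1, ?_⟩
    show 2 * c 2 + (if (2 : Fin 3) = 2 then (if true = true then 2 else 0) else 1) = _
    rw [if_pos rfl, if_pos rfl]
    have h4 : c 2 % r = r - 1 := by omega
    rw [mul_add, mul_one]
    omega

/-- a facet that is not core is below or above the core rows of the level `q` -/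
lemma hgt_gap (q : ℤ) (f : (P.refine r hr).Facet) (hf : (rowsR P r j hr hj hj2).rw f = 0) :
    hgt f.1.1 f.1.2 + 1 ≤ 2 * (r * q + j) ∨ 2 * (r * q + j + 5) + 1 ≤ hgt f.1.1 f.1.2 := by
  have hr' : (0 : ℤ) < r := by exact_mod_cast hr
  by_cases hp : f.1.2.1 = 2
  · obtain ⟨q', hq'⟩ := plate_hgt f hp
    rw [hq']
    rcases le_or_gt q' q with h | h
    · left
      have : (r : ℤ) * q' ≤ r * q := by nlinarith
      omega
    · right
      have : (r : ℤ) * (q + 1) ≤ r * q' := by nlinarith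
      rw [mul_add, mul_one] at this
      omega
  · have h1 := (rowsR_rw_zero hr hj hj2).1 hf
    have e0 : hgt f.1.1 f.1.2 = 2 * f.1.1 2 + 1 := by
      unfold hgt; rw [if_neg hp]
    rw [e0]
    rcases h1 with h1 | h1
    · exact absurd h1 hp
    · by_contra hcon
      push Not at hcon
      obtain ⟨c1, c2⟩ := hcon
      have h2 : f.1.1 2 = (f.1.1 2 - r * q) + r * q := by ring
      have h3 : f.1.1 2 % r = f.1.1 2 - r * q := by
        rw [h2, Int.add_mul_emod_self_left]
        rw [show f.1.1 2 - r * q + r * q - r * q = f.1.1 2 - r * q by ring]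
        exact Int.emod_eq_of_lt (by omega) (by omega)
      omega

/-- there is a tree band -/
theorem exists_tree_rim (hP : P.IsOrthogonalPolyhedron) {tr : (P.refine r hr).FSt → Prop}
    (hT : (rowsR P r j hr hj hj2).Tree tr) :
    ∃ s, (rowsR P r j hr hj hj2).Rim s ∧ tr s := by
  have hr' : (0 : ℤ) < r := by exact_mod_cast hr
  set R := rowsR P r j hr hj hj2 with hR
  by_contra hcon
  push Not at hcon
  -- a wall
  have hne : P.cells.Nonempty := by
    obtain ⟨F⟩ := hP.2.nonempty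
    exact ⟨F.1.1, F.2.1⟩
  obtain ⟨c, hc, hmax⟩ := Finset.exists_max_image P.cells (fun c => c 0) hne
  let c' : Fin 3 → ℤ := fun i => r * c i + (if i = 0 then (r : ℤ) - 1 else if i = 2 then (j : ℤ) else 0)
  have hc' : c' ∈ (P.refine r hr).cells := by
    rw [mem_refine]
    have : (fun a => c' a / (r : ℤ)) = c := by
      funext a
      show (r * c a + _) / (r : ℤ) = _
      rw [add_comm, Int.add_mul_ediv_left _ _ hr'.ne']
      have : (if a = 0 then (r : ℤ) - 1 else if a = 2 then (j : ℤ) else 0) / r = 0 := by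
        split_ifs
        · exact Int.ediv_eq_zero_of_lt (by omega) (by omega)
        · exact Int.ediv_eq_zero_of_lt (by omega) (by omega)
        · exact Int.zero_ediv _
      rw [this, zero_add]
    rw [this]; exact hc
  have hd' : shift c' (0, true) ∉ (P.refine r hr).cells := by
    rw [mem_refine]
    intro h
    have h1 := hmax _ h
    have h2 : shift c' (0, true) 0 = r * c 0 + r := by
      have := shift_same c' (0, true)
      rw [show ((0 : Fin 3), true).1 = 0 from rfl] at this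
      rw [this]
      show (r * c 0 + (if (0 : Fin 3) = 0 then (r : ℤ) - 1 else _)) + (if true = true then 1 else -1)
        = _
      rw [if_pos rfl, if_pos rfl]
      ring
    simp only [h2] at h1
    rw [show (r : ℤ) * c 0 + r = r * (c 0 + 1) by ring, Int.mul_ediv_cancel_left _ hr'.ne'] at h1
    omega
  obtain ⟨s, hU, hz0, hsd⟩ : ∃ s : (P.refine r hr).FSt, IsU s ∧ s.1.c 2 = r * c 2 + j ∧
      s.1.d.1 ≠ 2 := by
    refine ⟨⟨⟨c', (0, true), (1, true)⟩, ⟨hc', hd'⟩, ?_⟩, ?_, ?_, ?_⟩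
    · show (0 : Fin 3) ≠ 1
      decide
    · show cross (0, true) (1, true) = (2, true)
      decide
    · show r * c 2 + (if (2 : Fin 3) = 0 then (r : ℤ) - 1
        else if (2 : Fin 3) = 2 then (j : ℤ) else 0) = _
      rw [if_neg (by decide), if_pos rfl]
    · show (0 : Fin 3) ≠ 2
      decide
  clear_value c'
  have hmod : ∀ i : ℤ, 0 ≤ i → i < r → (r * c 2 + i) % (r : ℤ) = i := by
    intro i h0 h1
    rw [add_comm, Int.add_mul_emod_self_left]
    exact Int.emod_eq_of_lt h0 h1
  -- the states above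
  have hup : ∀ i : ℕ, i ≤ 5 → IsU ((pN ^ i) s) ∧ ((pN ^ i) s).1.c 2 = r * c 2 + j + i ∧
      ((pN ^ i) s).1.d.1 ≠ 2 := by
    intro i
    induction i with
    | zero =>
      intro _
      refine ⟨hU, ?_, ?_⟩
      · show s.1.c 2 = _
        rw [hz0]; simp
      · exact hsd
    | succ i ih =>
      intro hi
      obtain ⟨h1, h2, h3⟩ := ih (by omega)
      have e : (pN ^ (i + 1)) s = ((pN ^ i) s).stN := by
        rw [pow_succ', Equiv.Perm.mul_apply]; rfl
      have h4 : ((pN ^ i) s).1.c 2 % r + 1 < r := by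
        rw [h2, add_assoc, hmod _ (by omega) (by omega)]
        omega
      have h5 := stN_up h1 h4
      have h6 : ((pN ^ i) s).stN.1.c = shift ((pN ^ i) s).1.c (2, true) := by rw [h5]; rfl
      have h7 : ((pN ^ i) s).stN.1.d = ((pN ^ i) s).1.d := by rw [h5]; rfl
      have h8 : ((pN ^ i) s).stN.1.e = ((pN ^ i) s).1.e := by rw [h5]; rfl
      rw [e]
      refine ⟨?_, ?_, by rw [h7]; exact h3⟩
      · show cross ((pN ^ i) s).stN.1.d ((pN ^ i) s).stN.1.e = _
        rw [h7, h8]; exact h1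
      · rw [h6, shift_two, if_pos rfl, if_pos rfl, h2]
        push_cast; ring
  have hrim : R.Rim s := by
    left
    refine ⟨hU, ?_⟩
    rw [hR, rowsR_rw_iff hr hj hj2 (show s.facet.1.2.1 ≠ 2 from hsd) le_rfl (by norm_num)]
    show s.1.c 2 % r = _
    rw [hz0, hmod _ (by omega) (by omega)]
    push_cast; ring
  have hrimf := Rows.Rim.far R hrim
  -- the predicate
  let Q : (P.refine r hr).Facet → Prop := fun f => hgt f.1.1 f.1.2 ≤ 2 * (r * c 2 + j)
  have hQ : R.QJ Q := by
    intro t h0 h1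
    have g0 := hgt_gap (hj := hj) (hj2 := hj2) (c 2) t.facet h0
    have g1 := hgt_gap (hj := hj) (hj2 := hj2) (c 2) t.stE.facet h1
    have g2 := hgt_step t
    show hgt t.facet.1.1 t.facet.1.2 ≤ _ ↔ hgt t.stE.facet.1.1 t.stE.facet.1.2 ≤ _
    have e1 : hgt t.facet.1.1 t.facet.1.2 = hgt t.1.c t.1.d := rfl
    have e2 : hgt t.stE.facet.1.1 t.stE.facet.1.2 = hgt t.stE.1.c t.stE.1.d := rfl
    rw [← e1, ← e2] at g2
    omega
  have hall := hT.conn Q hQ (fun r h1 h2 => absurd h2 (hcon r h1)) (Rows.jf s)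
    (Rows.jf (Rows.far s)) (R.rw_symm hrim) (R.rw_symm hrimf)
  -- below
  have hb : Q (Rows.jf s) := by
    have h1 := R.rw_symm hrim
    have g0 := hgt_gap (hj := hj) (hj2 := hj2) (c 2) (Rows.jf s) h1
    have g2 := hgt_step (pN.symm s).rL
    have e0 : ∀ u : (P.refine r hr).FSt, u.rL.stE.facet = u.stN.facet := fun u => rfl
    have e1 : (pN.symm s).rL.stE.facet = s.facet := by
      rw [e0, pN_symm_stN s]
    have e2 : hgt (pN.symm s).rL.stE.1.c (pN.symm s).rL.stE.1.d = 2 * (r * c 2 + j) + 1 := by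
      have : (pN.symm s).rL.stE.1.c = s.1.c ∧ (pN.symm s).rL.stE.1.d = s.1.d := by
        have h3 := congrArg (fun f : (P.refine r hr).Facet => f.1) e1
        exact ⟨congrArg Prod.fst h3, congrArg Prod.snd h3⟩
      rw [this.1, this.2]
      unfold hgt
      rw [hz0, if_neg hsd]
    have e3 : ∀ u : (P.refine r hr).FSt, hgt u.rL.1.c u.rL.1.d = hgt u.facet.1.1 u.facet.1.2 :=
      fun u => rfl
    rw [e2, e3] at g2
    have e4 : (pN.symm s).facet = Rows.jf s := rfl
    rw [e4] at g2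
    show hgt (Rows.jf s).1.1 (Rows.jf s).1.2 ≤ _
    omega
  have ha : ¬ Q (Rows.jf (Rows.far s)) := by
    have e : Rows.jf (Rows.far s) = ((pN ^ 5) s).facet := by
      unfold Rows.jf Rows.far
      rw [pN_symm_r2, FSt.facet_r2]
      have e5 : (pN ^ 5) s = ((pN ^ 4) s).stN := by
        rw [pow_succ' _ 4, Equiv.Perm.mul_apply]; rfl
      rw [e5]
    obtain ⟨h1, h2, h3⟩ := hup 5 le_rfl
    show ¬ hgt (Rows.jf (Rows.far s)).1.1 (Rows.jf (Rows.far s)).1.2 ≤ _
    rw [e]
    show ¬ hgt ((pN ^ 5) s).1.c ((pN ^ 5) s).1.d ≤ _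
    unfold hgt
    rw [h2, if_neg h3]
    push_cast
    omega
  exact ha (hall.1 hb)

end

/-! ## The theorem -/

/-- The local lemma with constants. -/
def LLC (r j k m : ℕ) (hr : 0 < r) (hj : 1 ≤ j) (hj2 : j + 6 ≤ r) (P : GridSolid) : Prop :=
  ∀ tr : (P.refine r hr).FSt → Prop,
    (∀ s, (rowsR P r j hr hj hj2).Rim s → (tr s.stE ↔ tr s)) →
    (∀ s, (rowsR P r j hr hj hj2).Rim s → (tr (Rows.far s) ↔ tr s)) →
    (rowsR P r j hr hj hj2).Tree tr →
    ∃ ac : (P.refine r hr).FSt → Prop,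
      (∀ s, (rowsR P r j hr hj hj2).Rim s → (ac s.stE ↔ ac s)) ∧
      (∀ s, (rowsR P r j hr hj hj2).Rim s → tr s → ac s) ∧
      (∀ s, (rowsR P r j hr hj hj2).Rim s → ac s ∨ ac (Rows.far s)) ∧
      HasLC (rowsR P r j hr hj hj2) k m tr ac

/-- **The local lemma.** -/
def LL : Prop := ∃ (r j k m : ℕ) (hr : 0 < r) (hj : 1 ≤ j) (hj2 : j + 6 ≤ r), 1 ≤ m ∧
  k = 2 * m + 1 ∧ ∀ P : GridSolid, P.IsOrthogonalPolyhedron → LLC r j k m hr hj hj2 P

theorem unfolding_of_LLC {P : GridSolid} (hP : P.IsOrthogonalPolyhedron) {r j k m : ℕ}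
    (hr : 0 < r) (hj : 1 ≤ j) (hj2 : j + 6 ≤ r) (hm : 1 ≤ m) (hk : k = 2 * m + 1)
    (h : LLC r j k m hr hj hj2 P) (hK : 0 < r * (5 * k)) :
    (P.refine (r * (5 * k)) hK).HasEdgeUnfolding := by
  obtain ⟨tr, h1, h2, h3⟩ :=
    Rows.exists_tree (rowsR P r j hr hj hj2) (isOrthogonal_refine hP hr)
  obtain ⟨ac, a1, a2, a3, a4⟩ := h tr h1 h2 h3
  obtain ⟨A, b1, b2, b3⟩ := exists_all h3 h1 h2 a4 (exists_tree_rim hP h3)
  have hA : All (rowsR P r j hr hj hj2) k m tr ac A := ⟨b1, b2, b3, h1, h2, a1, a2, a3⟩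
  exact unfolding_of_cert hP hr (hA.toRX hm hk).toJX h3 ((hA.toRX hm hk).conn_of (hA.conn hm hk)) hK

/-- **Q1 from the local lemma.** -/
theorem q1_of_LL (h : LL) : ∃ (K : ℕ) (hK : 0 < K), ∀ P : GridSolid, P.IsOrthogonalPolyhedron →
    (P.refine K hK).HasEdgeUnfolding := by
  obtain ⟨r, j, k, m, hr, hj, hj2, hm, hk, hL⟩ := h
  have hK : 0 < r * (5 * k) := Nat.mul_pos hr (by omega)
  exact ⟨r * (5 * k), hK, fun P hP => unfolding_of_LLC hP hr hj hj2 hm hk (hL P hP) hK⟩

end Pool.Agent.MP42R
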