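import Pool.Agent.MP42.R.RConn
import Pool.Agent.MP42.X.Lng

/-!
# Router layer: leaning facets
-/

set_option autoImplicit false
set_option linter.unusedSectionVars false

namespace Pool.Agent.MP42R

open Pool.Agent.Helper55.UNF Pool.Agent.Helper55.UNF.GridSolid Pool.Agent.MP42G
open Pool.Agent.MP42H Pool.Agent.MP42X

variable {P : GridSolid}

/-- A junction certificate with numbers of strands and leaning facets. -/
structure RXL (P : GridSolid) (k : ℕ) extends RX0 P k where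
  L : P.Facet → Prop
  Pl : ℕ → P.FSt → ℕ → Prop
  K : Bool → P.FSt → Prop
  L_rw : ∀ f, L f → rw f = 0
  L_cn : ∀ f, L f → ∀ x ≤ k, cn f x = 0
  L_sn : ∀ f, L f → ∀ x < k, sL f x = Ln.z ∧ nL f x = Ln.z
  uniq : ∀ n g y n' g' y', Pl n g y → Pl n' g' y' → L ((pN ^ n) g).facet →
    ((pN ^ n) g).facet = ((pN ^ n') g').facet → n = n' ∧ g = g' ∧ y = y'
  nc : ∀ E s, K E s → ¬ K (!E) s.r2
  sup : ∀ f, L f → ∃ (g : P.FSt) (y0 n : ℕ) (E : Bool), ((pN ^ n) g).facet = f ∧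
    SupA k (fun s => rw s.facet = 0 ∧ Act can s) (prS k can fun f => tpr m (cn f))
      (laS k can fun f => tla m (cn f) (sL f) (nL f)) L Pl K E n g y0
  cov : ∀ f, rw f = 0 → ¬ L f → ∀ x < k, ∀ w : Bool, ∃ z : ℤ,
    (∀ y ∈ Set.uIcc 0 z, y ≠ z → ∃ g, rw g = 0 ∧ ¬ L g ∧ (pN ^ y) (can f) = can g) ∧
    ((∃ g, rw g = 0 ∧ (pN ^ z) (can f) = can g ∧ 0 < cn g (if w then x else x + 1)) ∨
     (0 < z ∧ toRows.Rim ((pN ^ z) (can f)) ∧ Lit tr ng z1 z2 fa fb ((pN ^ z) (can f))) ∨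
     (z < 0 ∧ toRows.Rim ((pN ^ z) (can f)).r2 ∧ Lit tr ng z1 z2 fa fb ((pN ^ z) (can f)).r2))
  /-- if there are leaning facets, then there is a lane -/
  lane : ∀ f, L f → ∃ g x, rw g = 0 ∧ x < k ∧ (sL g x ≠ Ln.z ∨ nL g x ≠ Ln.z)

namespace RXL

variable {k : ℕ} (R : RXL P k)

/-- **The junction certificate.** -/
def toJXL : JXL P k where
  toJX0 := R.toRX0.toJX0
  L := R.L
  Pl := R.Pl
  K := R.K
  L_rw := R.L_rw
  L_pr := fun f h x y hx _ => by
    show cpr R.m (R.cn f x) y = false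
    rw [R.L_cn f h x hx, cpr_zero]
  L_la := fun f h x y hx hy => by
    have hk := R.hk
    have h1 := (R.fac f (R.L_rw f h)).tla_eq R.hm (x := x) (by omega) y
    show tla R.m (R.cn f) (R.sL f) (R.nL f) x y = Ln.z
    rw [h1, (R.L_sn f h x hx).1, (R.L_sn f h x hx).2]
    rfl
  uniq := R.uniq
  nc := R.nc
  sup := R.sup
  cov := fun f hf hL x hx w => by
    obtain ⟨z, h1, h2⟩ := R.cov f hf hL x hx w
    refine ⟨z, h1, ?_⟩
    rcases h2 with ⟨g, g1, g2, g3⟩ | h2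
    · refine Or.inl ⟨g, g1, g2, ?_⟩
      have hk := R.hk
      have h3 := (ex_cpr (R.bd g g1 (if w then x else x + 1) (by split_ifs <;> omega))).2 g3
      obtain ⟨y, hy, h4⟩ := h3
      exact ⟨y, by omega, h4⟩
    · exact Or.inr h2
  lane := fun f hf => by
    obtain ⟨g, x, h1, h2, h3⟩ := R.lane f hf
    rcases h3 with h3 | h3
    · refine ⟨g, x, 0, h1, h2, Nat.zero_le _, ?_⟩
      show R.la g x 0 ≠ Ln.z
      rw [R.la_zero]
      exact h3
    · refine ⟨g, x, k, h1, h2, le_rfl, ?_⟩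
      show R.la g x k ≠ Ln.z
      rw [R.la_top]
      exact h3

end RXL

end Pool.Agent.MP42R
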