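import Pool.Agent.MP42.R.RConn

/-!
# Router layer: tracing the strands of a column

The nine cases of letters, as relations between the values on the west side, on the east side and
over the south and north sides.
-/

set_option autoImplicit false
set_option linter.unusedSectionVars false

namespace Pool.Agent.MP42R

open Pool.Agent.Helper55.UNF Pool.Agent.Helper55.UNF.GridSolid Pool.Agent.MP42G
open Pool.Agent.MP42H Pool.Agent.MP42X

variable {P : GridSolid} {k : ℕ} {R : RX0 P k} {V : P.Facet → ℕ → ℕ → Prop}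
  {S N : P.Facet → ℕ → Prop}

namespace RX0

namespace Inv

variable (I : R.Inv V S N) {f : P.Facet} (hf : R.rw f = 0) {x : ℕ} (hx : x < k)

include I hf hx

lemma c_zz (h1 : R.sL f x = Ln.z) (h2 : R.nL f x = Ln.z) {i : ℕ} (hi : i < R.cn f x) :
    V f x i ↔ V f (x + 1) i := by
  have b := R.bal f hf x hx
  have h := I.cell f hf x hx i
  rw [h1, h2] at b h
  simp only [vl, inR, outR, en, es] at b h
  simp at b h
  have h := h hi
  rw [if_pos hi, if_pos (by omega)] at h
  exact h

lemma c_nz (h1 : R.sL f x = Ln.n) (h2 : R.nL f x = Ln.z) :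
    (S f x ↔ V f (x + 1) 0) ∧ ∀ i < R.cn f x, (V f x i ↔ V f (x + 1) (i + 1)) := by
  have b := R.bal f hf x hx
  have h := I.cell f hf x hx
  rw [h1, h2] at b h
  simp only [vl, inR, outR, en, es] at b h
  simp at b h
  constructor
  · have h := h 0 (by omega)
    rw [if_pos rfl, if_pos (by omega)] at h
    exact h
  · intro i hi
    have h := h (i + 1) (by omega)
    rw [if_neg (by omega), if_pos (by omega), if_pos (by omega), Nat.add_sub_cancel] at h
    exact h

lemma c_sz (h1 : R.sL f x = Ln.s) (h2 : R.nL f x = Ln.z) :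
    (V f x 0 ↔ S f x) ∧ ∀ i, i + 1 < R.cn f x → (V f x (i + 1) ↔ V f (x + 1) i) := by
  have b := R.bal f hf x hx
  have h := I.cell f hf x hx
  rw [h1, h2] at b h
  simp only [vl, inR, outR, en, es] at b h
  simp at b h
  constructor
  · have h := h 0 (by omega)
    rw [if_pos (by omega), if_pos rfl] at h
    exact h
  · intro i hi
    have h := h (i + 1) (by omega)
    rw [if_pos (by omega), if_neg (by omega), if_pos (by omega), Nat.add_sub_cancel] at h
    exact h

lemma c_zn (h1 : R.sL f x = Ln.z) (h2 : R.nL f x = Ln.n) :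
    (V f x (R.cn f (x + 1)) ↔ N f x) ∧ ∀ i < R.cn f (x + 1), (V f x i ↔ V f (x + 1) i) := by
  have b := R.bal f hf x hx
  have h := I.cell f hf x hx
  rw [h1, h2] at b h
  simp only [vl, inR, outR, en, es] at b h
  simp at b h
  constructor
  · have h := h (R.cn f (x + 1)) (by omega)
    rw [if_pos (by omega), if_neg (by omega)] at h
    exact h
  · intro i hi
    have h := h i (by omega)
    rw [if_pos (by omega), if_pos (by omega)] at h
    exact h

lemma c_zs (h1 : R.sL f x = Ln.z) (h2 : R.nL f x = Ln.s) :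
    (N f x ↔ V f (x + 1) (R.cn f x)) ∧ ∀ i < R.cn f x, (V f x i ↔ V f (x + 1) i) := by
  have b := R.bal f hf x hx
  have h := I.cell f hf x hx
  rw [h1, h2] at b h
  simp only [vl, inR, outR, en, es] at b h
  simp at b h
  constructor
  · have h := h (R.cn f x) (by omega)
    rw [if_neg (by omega), if_pos (by omega)] at h
    exact h
  · intro i hi
    have h := h i (by omega)
    rw [if_pos (by omega), if_pos (by omega)] at h
    exact h

lemma c_nn (h1 : R.sL f x = Ln.n) (h2 : R.nL f x = Ln.n) :
    (R.cn f x = 0 → (S f x ↔ N f x)) ∧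
    (∀ i, R.cn f x = i + 1 → (S f x ↔ V f (x + 1) 0) ∧ (V f x i ↔ N f x)) ∧
    ∀ i, i + 1 < R.cn f x → (V f x i ↔ V f (x + 1) (i + 1)) := by
  have b := R.bal f hf x hx
  have h := I.cell f hf x hx
  rw [h1, h2] at b h
  simp only [vl, inR, outR, en, es] at b h
  simp at b h
  refine ⟨fun h0 => ?_, fun i hi => ⟨?_, ?_⟩, fun i hi => ?_⟩
  · have h := h 0 (by omega)
    rw [if_pos rfl, if_neg (by omega)] at h
    exact h
  · have h := h 0 (by omega)
    rw [if_pos rfl, if_pos (by omega)] at h
    exact h
  · have h := h (i + 1) (by omega)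
    rw [if_neg (by omega), if_pos (by omega), if_neg (by omega), Nat.add_sub_cancel] at h
    exact h
  · have h := h (i + 1) (by omega)
    rw [if_neg (by omega), if_pos (by omega), if_pos (by omega), Nat.add_sub_cancel] at h
    exact h

lemma c_ss (h1 : R.sL f x = Ln.s) (h2 : R.nL f x = Ln.s) :
    (R.cn f x = 0 → (N f x ↔ S f x)) ∧
    (∀ i, R.cn f x = i + 1 → (V f x 0 ↔ S f x) ∧ (N f x ↔ V f (x + 1) i)) ∧
    ∀ i, i + 1 < R.cn f x → (V f x (i + 1) ↔ V f (x + 1) i) := by
  have b := R.bal f hf x hx
  have h := I.cell f hf x hx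
  rw [h1, h2] at b h
  simp only [vl, inR, outR, en, es] at b h
  simp at b h
  refine ⟨fun h0 => ?_, fun i hi => ⟨?_, ?_⟩, fun i hi => ?_⟩
  · have h := h 0 (by omega)
    rw [if_neg (by omega), if_pos rfl] at h
    exact h
  · have h := h 0 (by omega)
    rw [if_pos (by omega), if_pos rfl] at h
    exact h
  · have h := h (i + 1) (by omega)
    rw [if_neg (by omega), if_neg (by omega), if_pos (by omega), Nat.add_sub_cancel] at h
    exact h
  · have h := h (i + 1) (by omega)
    rw [if_pos (by omega), if_neg (by omega), if_pos (by omega), Nat.add_sub_cancel] at h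
    exact h

lemma c_ns (h1 : R.sL f x = Ln.n) (h2 : R.nL f x = Ln.s) :
    (S f x ↔ V f (x + 1) 0) ∧ (N f x ↔ V f (x + 1) (R.cn f x + 1)) ∧
    ∀ i < R.cn f x, (V f x i ↔ V f (x + 1) (i + 1)) := by
  have b := R.bal f hf x hx
  have h := I.cell f hf x hx
  rw [h1, h2] at b h
  simp only [vl, inR, outR, en, es] at b h
  simp at b h
  refine ⟨?_, ?_, fun i hi => ?_⟩
  · have h := h 0 (by omega)
    rw [if_pos rfl, if_pos (by omega)] at h
    exact h
  · have h := h (R.cn f x + 1) (by omega)
    rw [if_neg (by omega), if_neg (by omega), if_pos (by omega)] at h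
    exact h
  · have h := h (i + 1) (by omega)
    rw [if_neg (by omega), if_pos (by omega), if_pos (by omega), Nat.add_sub_cancel] at h
    exact h

lemma c_sn (h1 : R.sL f x = Ln.s) (h2 : R.nL f x = Ln.n) :
    (V f x 0 ↔ S f x) ∧ (V f x (R.cn f (x + 1) + 1) ↔ N f x) ∧
    ∀ i < R.cn f (x + 1), (V f x (i + 1) ↔ V f (x + 1) i) := by
  have b := R.bal f hf x hx
  have h := I.cell f hf x hx
  rw [h1, h2] at b h
  simp only [vl, inR, outR, en, es] at b h
  simp at b h
  refine ⟨?_, ?_, fun i hi => ?_⟩
  · have h := h 0 (by omega)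
    rw [if_pos (by omega), if_pos rfl] at h
    exact h
  · have h := h (R.cn f (x + 1) + 1) (by omega)
    rw [if_pos (by omega), if_neg (by omega), if_neg (by omega)] at h
    exact h
  · have h := h (i + 1) (by omega)
    rw [if_pos (by omega), if_neg (by omega), if_pos (by omega), Nat.add_sub_cancel] at h
    exact h

omit hx in
/-- no lanes in the columns `x, .., y - 1` -/
lemma run {x y : ℕ} (hxy : x ≤ y) (hy : y ≤ k)
    (h : ∀ z, x ≤ z → z < y → R.sL f z = Ln.z ∧ R.nL f z = Ln.z) :
    R.cn f y = R.cn f x ∧ ∀ i < R.cn f x, (V f x i ↔ V f y i) := by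
  induction y with
  | zero =>
    have : x = 0 := by omega
    subst this
    exact ⟨rfl, fun i _ => Iff.rfl⟩
  | succ y ih =>
    rcases Nat.lt_or_ge x (y + 1) with h1 | h1
    · obtain ⟨h2, h3⟩ := ih (by omega) (by omega) (fun z h4 h5 => h z h4 (by omega))
      obtain ⟨h4, h5⟩ := h y (by omega) (by omega)
      have b := R.bal f hf y (by omega)
      rw [h4, h5] at b
      simp only [vl] at b
      refine ⟨by omega, fun i hi => (h3 i hi).trans (I.c_zz hf (by omega) h4 h5 (by omega))⟩
    · have : x = y + 1 := by omega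
      subst this
      exact ⟨rfl, fun i _ => Iff.rfl⟩

end Inv

end RX0

end Pool.Agent.MP42R
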