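import Pool.Agent.MP42.R.Loc

/-!
# Local certificates with matching types exist on all junctions

Induction over the junctions: a set `S` of junctions that is connected by tree bands, with
certificates whose types agree over the tree bands in `S`, is extended over a tree band.
-/

set_option autoImplicit false
set_option linter.unusedSectionVars false

namespace Pool.Agent.MP42R

open Pool.Agent.Helper55.UNF Pool.Agent.Helper55.UNF.GridSolid Pool.Agent.MP42G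
open Pool.Agent.MP42H Pool.Agent.MP42X

variable {P : GridSolid}

/-- every junction has a certificate with a given type at a given tree rim -/
def HasLC (R : Rows P) (k m : ℕ) (tr ac : P.FSt → Prop) : Prop :=
  ∀ r, R.Rim r → tr r → ∀ ng z1 z2 : Bool, (z1 = true → z2 = true) →
    ∃ D : LD P, LC R k m tr ac (Jn R (Rows.jf r)) D ∧ D.ng r = ng ∧ D.z1 r = z1 ∧ D.z2 r = z2

/-- the types of the rims `r` and `s` agree -/
def TyEq (A B : LD P) (r s : P.FSt) : Prop := A.ng r = B.ng s ∧ A.z1 r = B.z1 s ∧ A.z2 r = B.z2 s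

/-- certificates on a set of junctions that is connected by tree bands -/
structure Part (R : Rows P) (k m : ℕ) (tr ac : P.FSt → Prop) (S : Set P.Facet)
    (A : P.Facet → LD P) : Prop where
  z : ∀ f ∈ S, R.rw f = 0
  q : ∀ f g, f ∈ S → Jn R f g → g ∈ S
  lc : ∀ f ∈ S, LC R k m tr ac (Jn R f) (A f)
  same : ∀ f g, f ∈ S → Jn R f g → A f = A g
  ty : ∀ r, R.Rim r → tr r → Rows.jf r ∈ S → Rows.jf (Rows.far r) ∈ S →
    TyEq (A (Rows.jf r)) (A (Rows.jf (Rows.far r))) r (Rows.far r)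
  con : ∀ Q, R.QJ Q → (∀ r, R.Rim r → tr r → Rows.jf r ∈ S → Rows.jf (Rows.far r) ∈ S →
    (Q (Rows.jf r) ↔ Q (Rows.jf (Rows.far r)))) → ∀ f g, f ∈ S → g ∈ S → (Q f ↔ Q g)

section

variable {R : Rows P} {k m : ℕ} {tr ac : P.FSt → Prop}

lemma Part.qj {S : Set P.Facet} {A : P.Facet → LD P} (h : Part R k m tr ac S A) :
    R.QJ (fun f => f ∈ S) := by
  intro s h0 h1
  constructor
  · intro hs; exact h.q _ _ hs (Jn.E h0 h1)
  · intro hs
    refine h.q _ _ hs ⟨h0, fun Q hQ => (hQ s h0 h1).symm⟩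

lemma LC.cyc {J : P.Facet → Prop} {D : LD P} (h : LC R k m tr ac J D)
    (hJ : ∀ f g, J f → Jn R f g → J g) (tr_E : ∀ r, R.Rim r → (tr r.stE ↔ tr r))
    {r s : P.FSt} (hr : R.Rim r) (hj : J (Rows.jf r)) (ht : tr r) (hs : pE.SameCycle r s) :
    D.ng s = D.ng r ∧ D.z1 s = D.z1 r ∧ D.z2 s = D.z2 r := by
  obtain ⟨n, hn⟩ := hs.exists_nat_pow_eq
  rw [← hn]
  clear hn hs
  have key : ∀ n : ℕ, R.Rim ((pE ^ n) r) ∧ J (Rows.jf ((pE ^ n) r)) ∧ tr ((pE ^ n) r) := by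
    intro n
    refine ⟨Rows.Rim.pow R hr n, hJ _ _ hj (Jn.cyc hr ⟨n, by simp⟩), ?_⟩
    induction n with
    | zero => exact ht
    | succ n ih =>
      rw [pow_succ', Equiv.Perm.mul_apply]
      exact (tr_E _ (Rows.Rim.pow R hr n)).2 ih
  induction n with
  | zero => exact ⟨rfl, rfl, rfl⟩
  | succ n ih =>
    obtain ⟨k1, k2, k3⟩ := key n
    have e1 := h.ng_E _ k1 k2 k3
    have e2 := h.z1_E _ k1 k2 k3
    have e3 := h.z2_E _ k1 k2 k3
    have e : (pE ^ (n + 1)) r = ((pE ^ n) r).stE := by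
      rw [pow_succ', Equiv.Perm.mul_apply]; rfl
    rw [e, e1, e2, e3]
    exact ih

lemma tr_cyc (tr_E : ∀ r, R.Rim r → (tr r.stE ↔ tr r)) {r s : P.FSt} (hr : R.Rim r)
    (hs : pE.SameCycle r s) : tr s ↔ tr r := by
  obtain ⟨n, hn⟩ := hs.exists_nat_pow_eq
  rw [← hn]
  clear hn hs
  induction n with
  | zero => exact Iff.rfl
  | succ n ih =>
    rw [pow_succ', Equiv.Perm.mul_apply]
    exact (tr_E _ (Rows.Rim.pow R hr n)).trans ih

open Classical in
/-- one more junction -/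
lemma Part.step (hT : R.Tree tr) (tr_E : ∀ r, R.Rim r → (tr r.stE ↔ tr r))
    (tr_far : ∀ r, R.Rim r → (tr (Rows.far r) ↔ tr r)) (hL : HasLC R k m tr ac)
    {S : Set P.Facet} {A : P.Facet → LD P} (h : Part R k m tr ac S A)
    {r : P.FSt} (hr : R.Rim r) (ht : tr r) (hS : Rows.jf r ∈ S) (hS' : Rows.jf (Rows.far r) ∉ S) :
    ∃ A', Part R k m tr ac (S ∪ {g | Jn R (Rows.jf (Rows.far r)) g}) A' := by
  have hrf := Rows.Rim.far R hr
  set g0 := Rows.jf (Rows.far r) with hg0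
  have hg00 : R.rw g0 = 0 := R.rw_symm hrf
  have hz : (A (Rows.jf r)).z1 r = true → (A (Rows.jf r)).z2 r = true :=
    (h.lc _ hS).z12 r hr (Jn.refl (h.z _ hS)) ht
  obtain ⟨D, hD, d1, d2, d3⟩ := hL _ hrf ((tr_far r hr).2 ht) ((A (Rows.jf r)).ng r) _ _ hz
  have hnS : ∀ g, Jn R g0 g → g ∉ S := by
    intro g hg hgS
    refine hS' (h.q g g0 hgS ⟨hg00, fun Q hQ => (hg.2 Q hQ).symm⟩)
  obtain ⟨A', hA'⟩ : ∃ A' : P.Facet → LD P, A' = fun f => if f ∈ S then A f else D := ⟨_, rfl⟩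
  refine ⟨A', ?_⟩
  have eS : ∀ f, f ∈ S → A' f = A f := fun f hf => by rw [hA']; exact if_pos hf
  have eD : ∀ f, Jn R g0 f → A' f = D := fun f hf => by rw [hA']; exact if_neg (hnS f hf)
  clear hA'
  have hJD : ∀ f g, Jn R g0 f → Jn R f g → Jn R g0 g := by
    intro f g h1 h2
    exact ⟨h2.1, fun Q hQ => (h1.2 Q hQ).trans (h2.2 Q hQ)⟩
  have hJS : ∀ f, f ∈ S → ∀ u v, Jn R f u → Jn R u v → Jn R f v := by
    intro f _ u v h1 h2
    exact ⟨h2.1, fun Q hQ => (h1.2 Q hQ).trans (h2.2 Q hQ)⟩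
  -- a tree band from `S` to the new junction is the band of `r`
  have huniq : ∀ r2, R.Rim r2 → tr r2 → Rows.jf r2 ∈ S → Jn R g0 (Rows.jf (Rows.far r2)) →
      pE.SameCycle r r2 := by
    intro r2 h2 ht2 hj1 hj2
    by_contra hn1
    have hn2 : ¬ pE.SameCycle (Rows.far r) r2 := by
      intro hc
      exact hnS _ (Jn.cyc hrf hc) hj1
    obtain ⟨S0, q1, q2, q3⟩ := hT.sep r hr ht
    apply q3
    have e1 : S0 (Rows.jf r) ↔ S0 (Rows.jf r2) := by
      refine h.con S0 q1 ?_ _ _ hS hj1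
      intro r3 h3 ht3 c1 c2
      refine q2 r3 h3 ht3 ?_ ?_
      · intro hc
        have := Jn.cyc (R := R) hrf (R.far_cyc hr hc)
        exact hnS _ this c2
      · intro hc
        exact hnS _ (Jn.cyc hrf hc) c1
    have e2 := q2 r2 h2 ht2 hn1 hn2
    have e3 := hj2.2 S0 q1
    exact (e1.trans e2).trans e3.symm
  refine ⟨?_, ?_, ?_, ?_, ?_, ?_⟩
  · rintro f (hf | hf)
    · exact h.z f hf
    · exact hf.1
  · rintro f g (hf | hf) hg
    · exact Or.inl (h.q f g hf hg)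
    · exact Or.inr (hJD f g hf hg)
  · rintro f (hf | hf)
    · rw [eS f hf]; exact h.lc f hf
    · rw [eD f hf, ← (show Jn R g0 f from hf).eq]; exact hD
  · rintro f g (hf | hf) hg
    · rw [eS f hf, eS g (h.q f g hf hg)]; exact h.same f g hf hg
    · rw [eD f hf, eD g (hJD f g hf hg)]
  · -- the types
    have main : ∀ r2, R.Rim r2 → tr r2 → Rows.jf r2 ∈ S → Jn R g0 (Rows.jf (Rows.far r2)) →
        TyEq (A (Rows.jf r2)) D r2 (Rows.far r2) := by
      intro r2 h2 ht2 hj1 hj2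
      have hc := huniq r2 h2 ht2 hj1 hj2
      have hA : A (Rows.jf r) = A (Rows.jf r2) := h.same _ _ hS (Jn.cyc hr hc)
      obtain ⟨a1, a2, a3⟩ := (h.lc _ hS).cyc (hJS _ hS) tr_E hr (Jn.refl (h.z _ hS)) ht hc
      have hc2 := R.far_cyc hr hc
      obtain ⟨b1, b2, b3⟩ := hD.cyc hJD tr_E hrf (Jn.refl hg00) ((tr_far r hr).2 ht) hc2
      refine ⟨?_, ?_, ?_⟩
      · rw [← hA, a1, b1, d1]
      · rw [← hA, a2, b2, d2]
      · rw [← hA, a3, b3, d3]
    rintro r2 h2 ht2 (c1 | c1) (c2 | c2)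
    · rw [eS _ c1, eS _ c2]; exact h.ty r2 h2 ht2 c1 c2
    · rw [eS _ c1, eD _ c2]; exact main r2 h2 ht2 c1 c2
    · rw [eD _ c1, eS _ c2]
      have h2f := Rows.Rim.far R h2
      have := main (Rows.far r2) h2f ((tr_far r2 h2).2 ht2) c2 (by
        rw [MP42H.far_far]; exact c1)
      rw [MP42H.far_far] at this
      exact ⟨this.1.symm, this.2.1.symm, this.2.2.symm⟩
    · exfalso
      obtain ⟨S0, q1, -, q3⟩ := hT.sep r2 h2 ht2
      apply q3
      exact ((show Jn R g0 _ from c1).2 S0 q1).symm.trans ((show Jn R g0 _ from c2).2 S0 q1)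
  · intro Q hQ hb
    have k1 : ∀ f, f ∈ S → (Q f ↔ Q (Rows.jf r)) := by
      intro f hf
      exact h.con Q hQ (fun r2 h2 ht2 c1 c2 => hb r2 h2 ht2 (Or.inl c1) (Or.inl c2)) _ _ hf hS
    have k2 : Q (Rows.jf r) ↔ Q g0 := hb r hr ht (Or.inl hS) (Or.inr (Jn.refl hg00))
    have k3 : ∀ f, f ∈ S ∪ {g | Jn R g0 g} → (Q f ↔ Q g0) := by
      rintro f (hf | hf)
      · exact (k1 f hf).trans k2
      · exact ((show Jn R g0 f from hf).2 Q hQ).symm
    intro f g hf hg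
    exact (k3 f hf).trans (k3 g hg).symm

/-- **Certificates with matching types on all junctions.** -/
theorem exists_all (hT : R.Tree tr) (tr_E : ∀ r, R.Rim r → (tr r.stE ↔ tr r))
    (tr_far : ∀ r, R.Rim r → (tr (Rows.far r) ↔ tr r)) (hL : HasLC R k m tr ac)
    (hne : ∃ r, R.Rim r ∧ tr r) :
    ∃ A : P.Facet → LD P, (∀ f, R.rw f = 0 → LC R k m tr ac (Jn R f) (A f)) ∧
      (∀ f g, R.rw f = 0 → Jn R f g → A f = A g) ∧
      ∀ r, R.Rim r → tr r → TyEq (A (Rows.jf r)) (A (Rows.jf (Rows.far r))) r (Rows.far r) := by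
  classical
  obtain ⟨r0, hr0, ht0⟩ := hne
  have base : ∃ A, Part R k m tr ac {g | Jn R (Rows.jf r0) g} A := by
    obtain ⟨D, hD, -⟩ := hL r0 hr0 ht0 false false false (fun h => h)
    have h0 : R.rw (Rows.jf r0) = 0 := R.rw_symm hr0
    refine ⟨fun _ => D, ?_, ?_, ?_, ?_, ?_, ?_⟩
    · intro f hf; exact hf.1
    · intro f g hf hg; exact ⟨hg.1, fun Q hQ => (hf.2 Q hQ).trans (hg.2 Q hQ)⟩
    · intro f hf; rw [← (show Jn R _ f from hf).eq]; exact hD
    · intro f g _ _; rfl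
    · intro r hr ht c1 c2
      exfalso
      obtain ⟨S0, q1, -, q3⟩ := hT.sep r hr ht
      exact q3 (((show Jn R _ _ from c1).2 S0 q1).symm.trans ((show Jn R _ _ from c2).2 S0 q1))
    · intro Q hQ _ f g hf hg
      exact ((show Jn R _ f from hf).2 Q hQ).symm.trans ((show Jn R _ g from hg).2 Q hQ)
  have hfin : Set.Finite {S : Set P.Facet | (Rows.jf r0 ∈ S) ∧ ∃ A, Part R k m tr ac S A} :=
    Set.toFinite _
  obtain ⟨S, hS⟩ := hfin.exists_maximal ⟨_, Jn.refl (R.rw_symm hr0), base⟩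
  obtain ⟨h0S, A, hA⟩ := hS.prop
  have hall : ∀ f, R.rw f = 0 → f ∈ S := by
    intro f hf
    by_contra hfS
    have h1 : ¬ ∀ r, R.Rim r → tr r → (Rows.jf r ∈ S ↔ Rows.jf (Rows.far r) ∈ S) := by
      intro hb
      have := hT.conn (fun f => f ∈ S) hA.qj hb (Rows.jf r0) f (R.rw_symm hr0) hf
      exact hfS (this.1 h0S)
    have h2 : ∃ r, R.Rim r ∧ tr r ∧ Rows.jf r ∈ S ∧ Rows.jf (Rows.far r) ∉ S := by
      by_contra hcon
      push Not at hcon
      apply h1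
      intro r hr ht
      constructor
      · exact hcon r hr ht
      · intro h3
        have := hcon (Rows.far r) (Rows.Rim.far R hr) ((tr_far r hr).2 ht) h3
        rwa [MP42H.far_far] at this
    obtain ⟨r, hr, ht, c1, c2⟩ := h2
    obtain ⟨A', hA'⟩ := hA.step hT tr_E tr_far hL hr ht c1 c2
    have hle : S ≤ S ∪ {g | Jn R (Rows.jf (Rows.far r)) g} := fun x hx => Or.inl hx
    have := hS.le_of_ge (show S ∪ {g | Jn R (Rows.jf (Rows.far r)) g} ∈ _ from
      ⟨Or.inl h0S, A', hA'⟩) hle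
    exact c2 (this (Or.inr (Jn.refl (R.rw_symm (Rows.Rim.far R hr)))))
  refine ⟨A, fun f hf => hA.lc f (hall f hf), fun f g hf hg => hA.same f g (hall f hf) hg, ?_⟩
  intro r hr ht
  exact hA.ty r hr ht (hall _ (R.rw_symm hr)) (hall _ (R.rw_symm (Rows.Rim.far R hr)))

end

end Pool.Agent.MP42R
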