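import Pool.Agent.Helper55.UNF.Win
import Pool.Agent.MP42.G.Defs

/-!
# Router layer: one column with given numbers of strands

`k = 2 * m + 1`.  If `c` strands cross a vertical line then they cross it in the rows
`m + 1 - c + 2 * i`, `i < c`.  In a column there are `c` strands to the west, `c'` strands to the
east, a lane `a` over the south side and a lane `b` over the north side, and the only condition is
`c' = c + vl a - vl b`.  The strands are connected in the planar way: a lane `n` in the south is a
new lowest strand, a lane `s` in the south is the end of the lowest strand, a lane `s` in the north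
is a new highest strand and a lane `n` in the north is the end of the highest strand.
-/

set_option autoImplicit false
set_option linter.unusedSectionVars false

namespace Pool.Agent.MP42R

open Pool.Agent.Helper55.UNF Pool.Agent.MP42G

/-- the rows of `c` strands -/
def cpr (m c y : ℕ) : Bool :=
  decide (m + 1 ≤ y + c ∧ y < m + 1 + c ∧ (y + c + m) % 2 = 1)

/-- the row of the strand number `i` (from the south) of `c` strands -/
def rho (m c i : ℕ) : ℕ := m + 1 + 2 * i - c

/-- the lane on the line `y` in a column with `c` strands to the west -/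
def cla (m c : ℕ) (a b : Ln) (y : ℕ) : Ln :=
  match a, b with
  | Ln.z, Ln.z => Ln.z
  | Ln.n, Ln.n => Ln.n
  | Ln.s, Ln.s => Ln.s
  | Ln.n, Ln.z => if y + c ≤ m ∨ (y ≤ m + c ∧ (y + c + m) % 2 = 0) then Ln.n else Ln.z
  | Ln.z, Ln.n => if m + c ≤ y ∨ (m + 2 ≤ y + c ∧ (y + c + m) % 2 = 0) then Ln.n else Ln.z
  | Ln.s, Ln.z => if y + c ≤ m + 1 ∨ (y + 1 ≤ m + c ∧ (y + c + m) % 2 = 1) then Ln.s else Ln.z
  | Ln.z, Ln.s => if m + c + 1 ≤ y ∨ (m + 1 ≤ y + c ∧ (y + c + m) % 2 = 1) then Ln.s else Ln.z
  | Ln.n, Ln.s => if y + c + 1 ≤ m then Ln.n else if m + c + 2 ≤ y then Ln.s else Ln.z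
  | Ln.s, Ln.n => if y + c ≤ m + 1 then Ln.s else if m + c ≤ y then Ln.n else Ln.z

/-- the balance of a column -/
def Bal (c c' : ℕ) (a b : Ln) : Prop := (c' : ℤ) = c + vl a - vl b

lemma cla_bot {m c c' : ℕ} {a b : Ln} (h : Bal c c' a b) (hm : 1 ≤ m) (hc : c ≤ m) (hc' : c' ≤ m) :
    cla m c a b 0 = a := by
  unfold Bal at h
  unfold cla
  cases a <;> cases b <;> simp only [vl] at h ⊢ <;> split_ifs <;> first | rfl | (exfalso; omega)

lemma cla_top {m c c' : ℕ} {a b : Ln} (h : Bal c c' a b) (hm : 1 ≤ m) (hc : c ≤ m) (hc' : c' ≤ m) :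
    cla m c a b (2 * m + 1) = b := by
  unfold Bal at h
  unfold cla
  cases a <;> cases b <;> simp only [vl] at h ⊢ <;> split_ifs <;> first | rfl | (exfalso; omega)

lemma cpr_true {m c y : ℕ} (h : m + 1 ≤ y + c ∧ y < m + 1 + c ∧ (y + c + m) % 2 = 1) :
    cpr m c y = true := decide_eq_true h

lemma cpr_false {m c y : ℕ} (h : ¬ (m + 1 ≤ y + c ∧ y < m + 1 + c ∧ (y + c + m) % 2 = 1)) :
    cpr m c y = false := decide_eq_false h

lemma cell_ok {m c c' : ℕ} {a b : Ln} (h : Bal c c' a b) (hc : c ≤ m) (hc' : c' ≤ m) (y : ℕ) :
    okc (cpr m c y) (cpr m c' y) (cla m c a b (y + 1)) (cla m c a b y) = true := by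
  unfold Bal at h
  unfold cla
  by_cases h1 : m + 1 ≤ y + c ∧ y < m + 1 + c ∧ (y + c + m) % 2 = 1
  · rw [cpr_true h1]
    by_cases h2 : m + 1 ≤ y + c' ∧ y < m + 1 + c' ∧ (y + c' + m) % 2 = 1
    · rw [cpr_true h2]
      cases a <;> cases b <;> simp only [vl] at h ⊢ <;> (try split_ifs) <;>
        first | rfl | (exfalso; omega)
    · rw [cpr_false h2]
      cases a <;> cases b <;> simp only [vl] at h ⊢ <;> (try split_ifs) <;>
        first | rfl | (exfalso; omega)
  · rw [cpr_false h1]
    by_cases h2 : m + 1 ≤ y + c' ∧ y < m + 1 + c' ∧ (y + c' + m) % 2 = 1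
    · rw [cpr_true h2]
      cases a <;> cases b <;> simp only [vl] at h ⊢ <;> (try split_ifs) <;>
        first | rfl | (exfalso; omega)
    · rw [cpr_false h2]
      cases a <;> cases b <;> simp only [vl] at h ⊢ <;> (try split_ifs) <;>
        first | rfl | (exfalso; omega)

/-! ## The relations in a column -/

/-- the relations in a column: `ψ` are the values on the west side, `ψ'` on the east side, `χ` on
the horizontal lines -/
def ColRel (m c c' : ℕ) (a b : Ln) (ψ ψ' χ : ℕ → Prop) : Prop :=
  ∀ y, y < 2 * m + 1 → ∀ p,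
    usd (cpr m c y) (cpr m c' y) (cla m c a b (y + 1)) (cla m c a b y) p = true →
    (prt (fun x y => if x = 0 then ψ y else ψ' y) (fun _ y => χ y) 0 y p ↔
      prt (fun x y => if x = 0 then ψ y else ψ' y) (fun _ y => χ y) 0 y
        (mate (cpr m c y) (cpr m c' y) (cla m c a b (y + 1)) (cla m c a b y) p))

section Rel

variable {m c c' : ℕ} {a b : Ln} {ψ ψ' χ : ℕ → Prop} (h : Bal c c' a b) (hc : c ≤ m)
  (hc' : c' ≤ m) (hr : ColRel m c c' a b ψ ψ' χ)

include h hc hc' hr

lemma rWN {y : ℕ} (hy : y < 2 * m + 1) (h1 : cpr m c y = true)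
    (h2 : cla m c a b (y + 1) = Ln.n) : ψ y ↔ χ (y + 1) := by
  have h3 := cell_ok h hc hc' y
  have h4 := hr y hy Prt.W
  rw [h1, h2] at h3 h4
  generalize cpr m c' y = b' at *
  generalize cla m c a b y = v' at *
  cases b' <;> cases v' <;> first | exact h4 rfl | exact absurd h3 (by decide)

lemma rWS {y : ℕ} (hy : y < 2 * m + 1) (h1 : cpr m c y = true)
    (h2 : cla m c a b y = Ln.s) : ψ y ↔ χ y := by
  have h3 := cell_ok h hc hc' y
  have h4 := hr y hy Prt.W
  rw [h1, h2] at h3 h4
  generalize cpr m c' y = b' at *
  generalize cla m c a b (y + 1) = v' at *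
  cases b' <;> cases v' <;> first | exact h4 rfl | exact absurd h3 (by decide)

lemma rSE {y : ℕ} (hy : y < 2 * m + 1) (h1 : cpr m c' y = true)
    (h2 : cla m c a b y = Ln.n) : χ y ↔ ψ' y := by
  have h3 := cell_ok h hc hc' y
  have h4 := hr y hy Prt.S
  rw [h1, h2] at h3 h4
  generalize cpr m c y = b' at *
  generalize cla m c a b (y + 1) = v' at *
  cases b' <;> cases v' <;> first | exact h4 rfl | exact absurd h3 (by decide)

lemma rNE {y : ℕ} (hy : y < 2 * m + 1) (h1 : cpr m c' y = true)
    (h2 : cla m c a b (y + 1) = Ln.s) : χ (y + 1) ↔ ψ' y := by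
  have h3 := cell_ok h hc hc' y
  have h4 := hr y hy Prt.N
  rw [h1, h2] at h3 h4
  generalize cpr m c y = b' at *
  generalize cla m c a b y = v' at *
  cases b' <;> cases v' <;> first | exact h4 rfl | exact absurd h3 (by decide)

lemma rWE {y : ℕ} (hy : y < 2 * m + 1) (h1 : cpr m c y = true)
    (h2 : cla m c a b y = Ln.z) (h3 : cla m c a b (y + 1) = Ln.z) : ψ y ↔ ψ' y := by
  have h4 := cell_ok h hc hc' y
  have h5 := hr y hy Prt.W
  rw [h1, h2, h3] at h4 h5
  generalize cpr m c' y = b' at *
  cases b' <;> first | exact h5 rfl | exact absurd h4 (by decide)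

lemma rSN {y : ℕ} (hy : y < 2 * m + 1) (h1 : cpr m c y = false) (h2 : cpr m c' y = false)
    (h3 : cla m c a b y ≠ Ln.z) : χ y ↔ χ (y + 1) := by
  have h4 := cell_ok h hc hc' y
  have h5 := hr y hy Prt.S
  rw [h1, h2] at h4 h5
  generalize cla m c a b y = u at *
  generalize cla m c a b (y + 1) = v at *
  cases u <;> cases v <;> first | exact h5 rfl | exact absurd rfl h3 | exact absurd h4 (by decide)

lemma rUp {y z : ℕ} (hyz : y ≤ z) (hz : z ≤ 2 * m + 1)
    (h1 : ∀ t, y ≤ t → t < z → cpr m c t = false ∧ cpr m c' t = false ∧ cla m c a b t ≠ Ln.z) :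
    χ y ↔ χ z := by
  obtain ⟨d, rfl⟩ : ∃ d, z = y + d := ⟨z - y, by omega⟩
  clear hyz
  induction d with
  | zero => exact Iff.rfl
  | succ d ih =>
    refine (ih (by omega) (fun t g1 g2 => h1 t g1 (by omega))).trans ?_
    obtain ⟨g1, g2, g3⟩ := h1 (y + d) (by omega) (by omega)
    exact rSN h hc hc' hr (by omega) g1 g2 g3

end Rel

/-- `1` for the letter `n` -/
def en (a : Ln) : ℕ := if a = Ln.n then 1 else 0

/-- `1` for the letter `s` -/
def es (a : Ln) : ℕ := if a = Ln.s then 1 else 0

/-- the values of the strands that come into a column, from south to north -/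
def inV (m c : ℕ) (a : Ln) (ψ χ : ℕ → Prop) (i : ℕ) : Prop :=
  if i < en a then χ 0 else if i < en a + c then ψ (rho m c (i - en a)) else χ (2 * m + 1)

/-- the values of the strands that go out of a column, from south to north -/
def outV (m c' : ℕ) (a : Ln) (ψ' χ : ℕ → Prop) (i : ℕ) : Prop :=
  if i < es a then χ 0 else if i < es a + c' then ψ' (rho m c' (i - es a)) else χ (2 * m + 1)

lemma cpr_rho {m c i : ℕ} (hc : c ≤ m) (hi : i < c) : cpr m c (rho m c i) = true :=
  cpr_true (by unfold rho; omega)

/-- **The strands of a column are connected in the planar way.** -/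
theorem col_rel {m c c' : ℕ} {a b : Ln} {ψ ψ' χ : ℕ → Prop} (h : Bal c c' a b) (hc : c ≤ m)
    (hc' : c' ≤ m) (hr : ColRel m c c' a b ψ ψ' χ) (i : ℕ) (hi : i < c + en a + es b) :
    inV m c a ψ χ i ↔ outV m c' a ψ' χ i := by
  have hB := h
  unfold Bal at hB
  have hWN := fun {y : ℕ} => rWN (y := y) h hc hc' hr
  have hWS := fun {y : ℕ} => rWS (y := y) h hc hc' hr
  have hSE := fun {y : ℕ} => rSE (y := y) h hc hc' hr
  have hNE := fun {y : ℕ} => rNE (y := y) h hc hc' hr
  have hWE := fun {y : ℕ} => rWE (y := y) h hc hc' hr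
  have hUp := fun {y z : ℕ} => rUp (y := y) (z := z) h hc hc' hr
  clear h hr
  unfold inV outV
  cases a <;> cases b <;> simp only [vl, en, es, if_true, if_false, reduceCtorEq] at hB hi ⊢
  · -- z z
    obtain rfl : c' = c := by omega
    rw [if_neg (by omega), if_pos (by omega), if_neg (by omega), if_pos (by omega)]
    simp only [Nat.sub_zero]
    exact hWE (by unfold rho; omega) (cpr_rho hc (by omega)) rfl rfl
  · -- z n
    obtain rfl : c = c' + 1 := by omega
    rw [if_neg (by omega), if_pos (by omega), if_neg (by omega)]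
    simp only [Nat.sub_zero]
    by_cases hi2 : i < c'
    · rw [if_pos (by omega)]
      refine (hWN (y := rho m (c' + 1) i) (by unfold rho; omega) (cpr_rho hc (by omega))
        ?_).trans ?_
      · show cla m (c' + 1) Ln.z Ln.n (rho m (c' + 1) i + 1) = Ln.n
        unfold cla rho
        simp only
        rw [if_pos (by omega)]
      · rw [show rho m (c' + 1) i + 1 = rho m c' i by unfold rho; omega]
        refine hSE (by unfold rho; omega) (cpr_rho hc' hi2) ?_
        show cla m (c' + 1) Ln.z Ln.n (rho m c' i) = Ln.n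
        unfold cla rho
        simp only
        rw [if_pos (by omega)]
    · rw [if_neg (by omega)]
      obtain rfl : i = c' := by omega
      refine (hWN (y := rho m (i + 1) i) (by unfold rho; omega) (cpr_rho hc (by omega))
        ?_).trans ?_
      · show cla m (i + 1) Ln.z Ln.n (rho m (i + 1) i + 1) = Ln.n
        unfold cla rho
        simp only
        rw [if_pos (by omega)]
      · refine hUp (by unfold rho; omega) le_rfl (fun t g1 g2 => ⟨?_, ?_, ?_⟩)
        · exact cpr_false (by unfold rho at g1; omega)
        · exact cpr_false (by unfold rho at g1; omega)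
        · show cla m (i + 1) Ln.z Ln.n t ≠ Ln.z
          unfold cla
          simp only
          rw [if_pos (by unfold rho at g1; omega)]
          decide
  · -- z s
    obtain rfl : c' = c + 1 := by omega
    rw [if_neg (c := i < 0) (by omega), if_neg (c := i < 0) (by omega),
      if_pos (c := i < 0 + (c + 1)) (by omega)]
    simp only [Nat.sub_zero]
    by_cases hi2 : i < c
    · rw [if_pos (by omega)]
      refine (hWS (y := rho m c i) (by unfold rho; omega) (cpr_rho hc (by omega)) ?_).trans ?_
      · show cla m c Ln.z Ln.s (rho m c i) = Ln.s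
        unfold cla rho
        simp only
        rw [if_pos (by omega)]
      · rw [show rho m c i = rho m (c + 1) i + 1 by unfold rho; omega]
        refine hNE (by unfold rho; omega) (cpr_rho hc' (by omega)) ?_
        show cla m c Ln.z Ln.s (rho m (c + 1) i + 1) = Ln.s
        unfold cla rho
        simp only
        rw [if_pos (by omega)]
    · rw [if_neg (by omega)]
      obtain rfl : i = c := by omega
      refine Iff.trans ?_ (hNE (y := rho m (i + 1) i) (by unfold rho; omega)
        (cpr_rho hc' (by omega)) ?_)
      · refine (hUp (by unfold rho; omega) le_rfl (fun t g1 g2 => ⟨?_, ?_, ?_⟩)).symm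
        · exact cpr_false (by unfold rho at g1; omega)
        · exact cpr_false (by unfold rho at g1; omega)
        · show cla m i Ln.z Ln.s t ≠ Ln.z
          unfold cla
          simp only
          rw [if_pos (by unfold rho at g1; omega)]
          decide
      · show cla m i Ln.z Ln.s (rho m (i + 1) i + 1) = Ln.s
        unfold cla rho
        simp only
        rw [if_pos (by omega)]
  · -- n z
    obtain rfl : c' = c + 1 := by omega
    rw [if_neg (c := i < 0) (by omega), if_pos (c := i < 0 + (c + 1)) (by omega)]
    simp only [Nat.sub_zero]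
    by_cases hi2 : i < 1
    · obtain rfl : i = 0 := by omega
      rw [if_pos (by omega)]
      refine Iff.trans ?_ (hSE (y := rho m (c + 1) 0) (by unfold rho; omega)
        (cpr_rho hc' (by omega)) ?_)
      · refine hUp (by omega) (by unfold rho; omega) (fun t g1 g2 => ⟨?_, ?_, ?_⟩)
        · exact cpr_false (by unfold rho at g2; omega)
        · exact cpr_false (by unfold rho at g2; omega)
        · show cla m c Ln.n Ln.z t ≠ Ln.z
          unfold cla
          simp only
          rw [if_pos (by unfold rho at g2; omega)]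
          decide
      · show cla m c Ln.n Ln.z (rho m (c + 1) 0) = Ln.n
        unfold cla rho
        simp only
        rw [if_pos (by omega)]
    · rw [if_neg (by omega), if_pos (by omega)]
      refine (hWN (y := rho m c (i - 1)) (by unfold rho; omega) (cpr_rho hc (by omega))
        ?_).trans ?_
      · show cla m c Ln.n Ln.z (rho m c (i - 1) + 1) = Ln.n
        unfold cla rho
        simp only
        rw [if_pos (by omega)]
      · rw [show rho m c (i - 1) + 1 = rho m (c + 1) i by unfold rho; omega]
        refine hSE (by unfold rho; omega) (cpr_rho hc' (by omega)) ?_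
        show cla m c Ln.n Ln.z (rho m (c + 1) i) = Ln.n
        unfold cla rho
        simp only
        rw [if_pos (by omega)]
  · -- n n
    obtain rfl : c' = c := by omega
    rw [if_neg (c := i < 0) (by omega)]
    simp only [Nat.sub_zero]
    have hs : ∃ L0, L0 ≤ 2 * m + 1 ∧
        ((if i < 1 then χ 0 else if i < 1 + c' then ψ (rho m c' (i - 1)) else χ (2 * m + 1)) ↔
          χ L0) ∧ (i = 0 → L0 = 0) ∧ (1 ≤ i → L0 = rho m c' (i - 1) + 1) := by
      by_cases hi2 : i < 1
      · rw [if_pos hi2]
        exact ⟨0, by omega, Iff.rfl, fun _ => rfl, fun h => by omega⟩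
      · rw [if_neg hi2, if_pos (by omega)]
        exact ⟨rho m c' (i - 1) + 1, by unfold rho; omega,
          hWN (y := rho m c' (i - 1)) (by unfold rho; omega) (cpr_rho hc (by omega)) rfl,
          fun h => by omega, fun _ => rfl⟩
    obtain ⟨L0, g1, g2, g3, g4⟩ := hs
    have he : ∃ L1, L1 ≤ 2 * m + 1 ∧
        (χ L1 ↔ (if i < 0 + c' then ψ' (rho m c' i) else χ (2 * m + 1))) ∧
        (i < c' → L1 = rho m c' i) ∧ (i = c' → L1 = 2 * m + 1) := by
      by_cases hi2 : i < 0 + c'
      · rw [if_pos hi2]
        exact ⟨rho m c' i, by unfold rho; omega,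
          hSE (y := rho m c' i) (by unfold rho; omega) (cpr_rho hc (by omega)) rfl,
          fun _ => rfl, fun h => by omega⟩
      · rw [if_neg hi2]
        exact ⟨2 * m + 1, le_rfl, Iff.rfl, fun h => by omega, fun _ => rfl⟩
    obtain ⟨L1, k1, k2, k3, k4⟩ := he
    refine g2.trans (Iff.trans ?_ k2)
    refine hUp ?_ k1 (fun t t1 t2 => ⟨?_, ?_, ?_⟩)
    · unfold rho at g4 k3; omega
    · exact cpr_false (by unfold rho at g4 k3; omega)
    · exact cpr_false (by unfold rho at g4 k3; omega)
    · exact (by decide : Ln.n ≠ Ln.z)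
  · -- n s
    obtain rfl : c' = c + 2 := by omega
    rw [if_neg (c := i < 0) (by omega), if_pos (c := i < 0 + (c + 2)) (by omega)]
    simp only [Nat.sub_zero]
    by_cases hi2 : i < 1
    · obtain rfl : i = 0 := by omega
      rw [if_pos (by omega)]
      refine Iff.trans ?_ (hSE (y := rho m (c + 2) 0) (by unfold rho; omega)
        (cpr_rho hc' (by omega)) ?_)
      · refine hUp (by omega) (by unfold rho; omega) (fun t g1 g2 => ⟨?_, ?_, ?_⟩)
        · exact cpr_false (by unfold rho at g2; omega)
        · exact cpr_false (by unfold rho at g2; omega)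
        · show cla m c Ln.n Ln.s t ≠ Ln.z
          unfold cla
          simp only
          rw [if_pos (by unfold rho at g2; omega)]
          decide
      · show cla m c Ln.n Ln.s (rho m (c + 2) 0) = Ln.n
        unfold cla rho
        simp only
        rw [if_pos (by omega)]
    · rw [if_neg (by omega)]
      by_cases hi3 : i < 1 + c
      · rw [if_pos hi3]
        rw [show rho m (c + 2) i = rho m c (i - 1) by unfold rho; omega]
        refine hWE (by unfold rho; omega) (cpr_rho hc (by omega)) ?_ ?_
        · show cla m c Ln.n Ln.s (rho m c (i - 1)) = Ln.z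
          unfold cla rho
          simp only
          rw [if_neg (by omega), if_neg (by omega)]
        · show cla m c Ln.n Ln.s (rho m c (i - 1) + 1) = Ln.z
          unfold cla rho
          simp only
          rw [if_neg (by omega), if_neg (by omega)]
      · rw [if_neg hi3]
        obtain rfl : i = c + 1 := by omega
        refine Iff.trans ?_ (hNE (y := rho m (c + 2) (c + 1)) (by unfold rho; omega)
          (cpr_rho hc' (by omega)) ?_)
        · refine (hUp (by unfold rho; omega) le_rfl (fun t g1 g2 => ⟨?_, ?_, ?_⟩)).symm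
          · exact cpr_false (by unfold rho at g1; omega)
          · exact cpr_false (by unfold rho at g1; omega)
          · show cla m c Ln.n Ln.s t ≠ Ln.z
            unfold cla
            simp only
            rw [if_neg (by unfold rho at g1; omega), if_pos (by unfold rho at g1; omega)]
            decide
        · show cla m c Ln.n Ln.s (rho m (c + 2) (c + 1) + 1) = Ln.s
          unfold cla rho
          simp only
          rw [if_neg (by omega), if_pos (by omega)]
  · -- s z
    obtain rfl : c = c' + 1 := by omega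
    rw [if_neg (c := i < 0) (by omega), if_pos (c := i < 0 + (c' + 1)) (by omega)]
    simp only [Nat.sub_zero]
    by_cases hi2 : i < 1
    · obtain rfl : i = 0 := by omega
      rw [if_pos (by omega)]
      refine (hWS (y := rho m (c' + 1) 0) (by unfold rho; omega) (cpr_rho hc (by omega))
        ?_).trans ?_
      · show cla m (c' + 1) Ln.s Ln.z (rho m (c' + 1) 0) = Ln.s
        unfold cla rho
        simp only
        rw [if_pos (by omega)]
      · refine (hUp (by omega) (by unfold rho; omega) (fun t g1 g2 => ⟨?_, ?_, ?_⟩)).symm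
        · exact cpr_false (by unfold rho at g2; omega)
        · exact cpr_false (by unfold rho at g2; omega)
        · show cla m (c' + 1) Ln.s Ln.z t ≠ Ln.z
          unfold cla
          simp only
          rw [if_pos (by unfold rho at g2; omega)]
          decide
    · rw [if_neg (by omega), if_pos (by omega)]
      refine (hWS (y := rho m (c' + 1) i) (by unfold rho; omega) (cpr_rho hc (by omega))
        ?_).trans ?_
      · show cla m (c' + 1) Ln.s Ln.z (rho m (c' + 1) i) = Ln.s
        unfold cla rho
        simp only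
        rw [if_pos (by omega)]
      · rw [show rho m (c' + 1) i = rho m c' (i - 1) + 1 by unfold rho; omega]
        refine hNE (by unfold rho; omega) (cpr_rho hc' (by omega)) ?_
        show cla m (c' + 1) Ln.s Ln.z (rho m c' (i - 1) + 1) = Ln.s
        unfold cla rho
        simp only
        rw [if_pos (by omega)]
  · -- s n
    obtain rfl : c = c' + 2 := by omega
    rw [if_neg (c := i < 0) (by omega), if_pos (c := i < 0 + (c' + 2)) (by omega)]
    simp only [Nat.sub_zero]
    by_cases hi2 : i < 1
    · obtain rfl : i = 0 := by omega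
      rw [if_pos (by omega)]
      refine (hWS (y := rho m (c' + 2) 0) (by unfold rho; omega) (cpr_rho hc (by omega))
        ?_).trans ?_
      · show cla m (c' + 2) Ln.s Ln.n (rho m (c' + 2) 0) = Ln.s
        unfold cla rho
        simp only
        rw [if_pos (by omega)]
      · refine (hUp (by omega) (by unfold rho; omega) (fun t g1 g2 => ⟨?_, ?_, ?_⟩)).symm
        · exact cpr_false (by unfold rho at g2; omega)
        · exact cpr_false (by unfold rho at g2; omega)
        · show cla m (c' + 2) Ln.s Ln.n t ≠ Ln.z
          unfold cla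
          simp only
          rw [if_pos (by unfold rho at g2; omega)]
          decide
    · rw [if_neg hi2]
      by_cases hi3 : i < 1 + c'
      · rw [if_pos hi3]
        rw [show rho m c' (i - 1) = rho m (c' + 2) i by unfold rho; omega]
        refine hWE (by unfold rho; omega) (cpr_rho hc (by omega)) ?_ ?_
        · show cla m (c' + 2) Ln.s Ln.n (rho m (c' + 2) i) = Ln.z
          unfold cla rho
          simp only
          rw [if_neg (by omega), if_neg (by omega)]
        · show cla m (c' + 2) Ln.s Ln.n (rho m (c' + 2) i + 1) = Ln.z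
          unfold cla rho
          simp only
          rw [if_neg (by omega), if_neg (by omega)]
      · rw [if_neg hi3]
        obtain rfl : i = c' + 1 := by omega
        refine (hWN (y := rho m (c' + 2) (c' + 1)) (by unfold rho; omega)
          (cpr_rho hc (by omega)) ?_).trans ?_
        · show cla m (c' + 2) Ln.s Ln.n (rho m (c' + 2) (c' + 1) + 1) = Ln.n
          unfold cla rho
          simp only
          rw [if_neg (by omega), if_pos (by omega)]
        · refine hUp (by unfold rho; omega) le_rfl (fun t g1 g2 => ⟨?_, ?_, ?_⟩)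
          · exact cpr_false (by unfold rho at g1; omega)
          · exact cpr_false (by unfold rho at g1; omega)
          · show cla m (c' + 2) Ln.s Ln.n t ≠ Ln.z
            unfold cla
            simp only
            rw [if_neg (by unfold rho at g1; omega), if_pos (by unfold rho at g1; omega)]
            decide
  · -- s s
    obtain rfl : c' = c := by omega
    rw [if_neg (c := i < 0) (by omega)]
    simp only [Nat.sub_zero]
    have hs : ∃ L0, L0 ≤ 2 * m + 1 ∧
        ((if i < 0 + c' then ψ (rho m c' i) else χ (2 * m + 1)) ↔ χ L0) ∧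
        (i < c' → L0 = rho m c' i) ∧ (i = c' → L0 = 2 * m + 1) := by
      by_cases hi2 : i < 0 + c'
      · rw [if_pos hi2]
        exact ⟨rho m c' i, by unfold rho; omega,
          hWS (y := rho m c' i) (by unfold rho; omega) (cpr_rho hc (by omega)) rfl,
          fun _ => rfl, fun h => by omega⟩
      · rw [if_neg hi2]
        exact ⟨2 * m + 1, le_rfl, Iff.rfl, fun h => by omega, fun _ => rfl⟩
    obtain ⟨L0, g1, g2, g3, g4⟩ := hs
    have he : ∃ L1, L1 ≤ 2 * m + 1 ∧
        (χ L1 ↔ (if i < 1 then χ 0 else if i < 1 + c' then ψ' (rho m c' (i - 1))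
          else χ (2 * m + 1))) ∧
        (i = 0 → L1 = 0) ∧ (1 ≤ i → L1 = rho m c' (i - 1) + 1) := by
      by_cases hi2 : i < 1
      · rw [if_pos hi2]
        exact ⟨0, by omega, Iff.rfl, fun _ => rfl, fun h => by omega⟩
      · rw [if_neg hi2, if_pos (by omega)]
        exact ⟨rho m c' (i - 1) + 1, by unfold rho; omega,
          hNE (y := rho m c' (i - 1)) (by unfold rho; omega) (cpr_rho hc (by omega)) rfl,
          fun h => by omega, fun _ => rfl⟩
    obtain ⟨L1, k1, k2, k3, k4⟩ := he
    refine g2.trans (Iff.trans ?_ k2)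
    refine (hUp ?_ g1 (fun t t1 t2 => ⟨?_, ?_, ?_⟩)).symm
    · unfold rho at g3 k4; omega
    · exact cpr_false (by unfold rho at g3 k4; omega)
    · exact cpr_false (by unfold rho at g3 k4; omega)
    · exact (by decide : Ln.s ≠ Ln.z)

lemma ex_rho {m c y : ℕ} (h : cpr m c y = true) : ∃ i < c, y = rho m c i := by
  have h1 : m + 1 ≤ y + c ∧ y < m + 1 + c ∧ (y + c + m) % 2 = 1 := of_decide_eq_true h
  exact ⟨(y + c - (m + 1)) / 2, by omega, by unfold rho; omega⟩

/-- If the four sides of a column have the value `q` then all lanes in the column have it. -/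
theorem col_hor {m c c' : ℕ} {a b : Ln} {ψ ψ' χ : ℕ → Prop} (h : Bal c c' a b) (hm : 1 ≤ m)
    (hc : c ≤ m) (hc' : c' ≤ m) (hr : ColRel m c c' a b ψ ψ' χ) {q : Prop}
    (h1 : ∀ i < c, ψ (rho m c i) ↔ q) (h2 : ∀ i < c', ψ' (rho m c' i) ↔ q)
    (h3 : a ≠ Ln.z → (χ 0 ↔ q)) (y : ℕ) (hy : y ≤ 2 * m + 1) (hl : cla m c a b y ≠ Ln.z) :
    χ y ↔ q := by
  induction y with
  | zero =>
    rw [cla_bot h hm hc hc'] at hl
    exact h3 hl
  | succ t ih =>
    have h4 := cell_ok h hc hc' t
    have h5 := hr t (by omega) Prt.N
    have g1 : cpr m c t = true → (ψ t ↔ q) := by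
      intro g
      obtain ⟨i, hi, rfl⟩ := ex_rho g
      exact h1 i hi
    have g2 : cpr m c' t = true → (ψ' t ↔ q) := by
      intro g
      obtain ⟨i, hi, rfl⟩ := ex_rho g
      exact h2 i hi
    have g3 : cla m c a b t ≠ Ln.z → (χ t ↔ q) := ih (by omega)
    clear ih h1 h2 h3
    generalize cpr m c t = A at *
    generalize cpr m c' t = B at *
    generalize cla m c a b (t + 1) = U at *
    generalize cla m c a b t = V at *
    cases A <;> cases B <;> cases U <;> cases V <;>
      first
      | exact absurd rfl hl
      | exact absurd h4 (by decide)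
      | exact (h5 rfl).trans (g3 (by decide))
      | exact (h5 rfl).trans (g1 rfl)
      | exact (h5 rfl).trans (g2 rfl)

end Pool.Agent.MP42R
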