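import Pool.Agent.MP42.R.Col

/-!
# Router layer: the table of a facet

`k = 2 * m + 1`; `cn x` strands cross the line `x`, the lanes over the south side are `sL`, those
over the north side `nL`, and `cn (x + 1) = cn x + vl (sL x) - vl (nL x)`.
-/

set_option autoImplicit false
set_option linter.unusedSectionVars false

namespace Pool.Agent.MP42R

open Pool.Agent.Helper55.UNF Pool.Agent.MP42G

/-- strands over vertical unit edges -/
def tpr (m : ℕ) (cn : ℕ → ℕ) (x y : ℕ) : Bool := cpr m (cn x) y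

/-- lanes over horizontal unit edges -/
def tla (m : ℕ) (cn : ℕ → ℕ) (sL nL : ℕ → Ln) (x y : ℕ) : Ln :=
  if y = 0 then sL x else if y = 2 * m + 1 then nL x else cla m (cn x) (sL x) (nL x) y

/-- the numbers of strands of a facet fit to the lanes -/
structure Fac (m : ℕ) (cn : ℕ → ℕ) (sL nL : ℕ → Ln) : Prop where
  bal : ∀ x < 2 * m + 1, Bal (cn x) (cn (x + 1)) (sL x) (nL x)
  bd : ∀ x ≤ 2 * m + 1, cn x ≤ m

lemma tla_zero (m : ℕ) (cn : ℕ → ℕ) (sL nL : ℕ → Ln) (x : ℕ) : tla m cn sL nL x 0 = sL x := by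
  unfold tla; rw [if_pos rfl]

lemma tla_top (m : ℕ) (cn : ℕ → ℕ) (sL nL : ℕ → Ln) (x : ℕ) :
    tla m cn sL nL x (2 * m + 1) = nL x := by
  unfold tla; rw [if_neg (by omega), if_pos rfl]

lemma cpr_rev {m c y : ℕ} (hy : y ≤ 2 * m) : cpr m c (2 * m - y) = cpr m c y := by
  unfold cpr
  congr 1
  apply propext
  constructor <;> intro h <;> omega

lemma cpr_zero (m y : ℕ) : cpr m 0 y = false := cpr_false (by omega)

lemma cpr_one {m y : ℕ} : cpr m 1 y = decide (y = m) := by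
  unfold cpr
  congr 1
  apply propext
  constructor <;> intro h <;> omega

lemma ex_cpr {m c : ℕ} (hc : c ≤ m) : (∃ y < 2 * m + 1, cpr m c y = true) ↔ 0 < c := by
  constructor
  · rintro ⟨y, -, h⟩
    obtain ⟨i, hi, -⟩ := ex_rho h
    omega
  · intro h
    exact ⟨rho m c 0, by unfold rho; omega, cpr_rho hc h⟩

lemma rho_rev {m c i : ℕ} (hc : c ≤ m) (hi : i < c) : 2 * m - rho m c i = rho m c (c - 1 - i) := by
  unfold rho; omega

lemma rho_lt {m c i : ℕ} (hc : c ≤ m) (hi : i < c) : rho m c i < 2 * m + 1 := by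
  unfold rho; omega

namespace Fac

variable {m : ℕ} {cn : ℕ → ℕ} {sL nL : ℕ → Ln}

lemma tla_eq (h : Fac m cn sL nL) (hm : 1 ≤ m) {x : ℕ} (hx : x < 2 * m + 1) (y : ℕ) :
    tla m cn sL nL x y = cla m (cn x) (sL x) (nL x) y := by
  have h1 := h.bal x hx
  have h2 := h.bd x (by omega)
  have h3 := h.bd (x + 1) (by omega)
  unfold tla
  split_ifs with h4 h5
  · subst h4; exact (cla_bot h1 hm h2 h3).symm
  · subst h5; exact (cla_top h1 hm h2 h3).symm
  · rfl

lemma ok (h : Fac m cn sL nL) (hm : 1 ≤ m) :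
    CellOk (2 * m + 1) (tpr m cn) (tla m cn sL nL) := by
  intro x y hx hy
  rw [h.tla_eq hm hx, h.tla_eq hm hx]
  exact cell_ok (h.bal x hx) (h.bd x (by omega)) (h.bd (x + 1) (by omega)) y

lemma col (h : Fac m cn sL nL) (hm : 1 ≤ m) {ψ χ : ℕ → ℕ → Prop}
    (hr : CellRel (2 * m + 1) (tpr m cn) (tla m cn sL nL) ψ χ) {x : ℕ} (hx : x < 2 * m + 1) :
    ColRel m (cn x) (cn (x + 1)) (sL x) (nL x) (ψ x) (ψ (x + 1)) (χ x) := by
  intro y hy p
  have h1 := hr x y hx hy p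
  rw [h.tla_eq hm hx, h.tla_eq hm hx] at h1
  intro hu
  have h2 := h1 hu
  have key : ∀ q : Prt, prt ψ χ x y q ↔
      prt (fun x' y' => if x' = 0 then ψ x y' else ψ (x + 1) y') (fun _ y' => χ x y') 0 y q := by
    intro q
    cases q
    · show ψ x y ↔ if (0 : ℕ) = 0 then ψ x y else ψ (x + 1) y
      rw [if_pos rfl]
    · show ψ (x + 1) y ↔ if (0 + 1 : ℕ) = 0 then ψ x y else ψ (x + 1) y
      rw [if_neg (by omega)]
    · exact Iff.rfl
    · exact Iff.rfl
  exact ((key p).symm.trans h2).trans (key _)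

/-- **The strands of a facet are connected in the planar way.** -/
theorem rel (h : Fac m cn sL nL) (hm : 1 ≤ m) {ψ χ : ℕ → ℕ → Prop}
    (hr : CellRel (2 * m + 1) (tpr m cn) (tla m cn sL nL) ψ χ) {x : ℕ} (hx : x < 2 * m + 1)
    (i : ℕ) (hi : i < cn x + en (sL x) + es (nL x)) :
    inV m (cn x) (sL x) (ψ x) (χ x) i ↔ outV m (cn (x + 1)) (sL x) (ψ (x + 1)) (χ x) i :=
  col_rel (h.bal x hx) (h.bd x (by omega)) (h.bd (x + 1) (by omega)) (h.col hm hr hx) i hi

/-- all lanes in a facet have the value of its sides -/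
theorem hor (h : Fac m cn sL nL) (hm : 1 ≤ m) {ψ χ : ℕ → ℕ → Prop}
    (hr : CellRel (2 * m + 1) (tpr m cn) (tla m cn sL nL) ψ χ) {q : Prop}
    (h1 : ∀ x ≤ 2 * m + 1, ∀ i < cn x, (ψ x (rho m (cn x) i) ↔ q))
    (h2 : ∀ x < 2 * m + 1, sL x ≠ Ln.z → (χ x 0 ↔ q)) {x y : ℕ} (hx : x < 2 * m + 1)
    (hy : y ≤ 2 * m + 1) (hl : tla m cn sL nL x y ≠ Ln.z) : χ x y ↔ q := by
  rw [h.tla_eq hm hx] at hl
  exact col_hor (h.bal x hx) hm (h.bd x (by omega)) (h.bd (x + 1) (by omega)) (h.col hm hr hx)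
    (h1 x (by omega)) (h1 (x + 1) (by omega)) (h2 x hx) y hy hl

end Fac

end Pool.Agent.MP42R
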