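import Pool.Agent.MP42.R.Asm

/-!
# The global certificate from the local certificates
-/

set_option autoImplicit false
set_option linter.unusedSectionVars false

namespace Pool.Agent.MP42R

open Pool.Agent.Helper55.UNF Pool.Agent.Helper55.UNF.GridSolid Pool.Agent.MP42G
open Pool.Agent.MP42H Pool.Agent.MP42X

variable {P : GridSolid}

lemma srch_congr {X : Type*} {π : Equiv.Perm X} {p q : X → Prop} {s : X}
    (h : ∀ j : ℕ, p ((π ^ j) s) ↔ q ((π ^ j) s)) : srch π p s = srch π q s := by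
  unfold srch
  congr 1
  ext j
  exact h j

section

variable (R : Rows P) (tr : P.FSt → Prop) (A : P.Facet → LD P)

open Classical in
/-- the frames -/
noncomputable def gcan (f : P.Facet) : P.FSt :=
  if R.rw f = 0 then (A f).can f else (exists_st f).choose

def gcn (f : P.Facet) : ℕ → ℕ := (A f).cn f
def gsL (f : P.Facet) : ℕ → Ln := (A f).sL f
def gnL (f : P.Facet) : ℕ → Ln := (A f).nL f

open Classical in
noncomputable def gng (r : P.FSt) : Bool := if tr r then (A (Rows.jf r)).ng r else false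
open Classical in
noncomputable def gz1 (r : P.FSt) : Bool := if tr r then (A (Rows.jf r)).z1 r else false
open Classical in
noncomputable def gz2 (r : P.FSt) : Bool := if tr r then (A (Rows.jf r)).z2 r else false
def gfa (r : P.FSt) : Prop := (A (Rows.jf r)).fa r
def gfb (r : P.FSt) : Prop := (A (Rows.jf r)).fb r

end

/-- local certificates with matching types -/
structure All (R : Rows P) (k m : ℕ) (tr ac : P.FSt → Prop) (A : P.Facet → LD P) : Prop where
  lc : ∀ f, R.rw f = 0 → LC R k m tr ac (Jn R f) (A f)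
  same : ∀ f g, R.rw f = 0 → Jn R f g → A f = A g
  ty : ∀ r, R.Rim r → tr r → TyEq (A (Rows.jf r)) (A (Rows.jf (Rows.far r))) r (Rows.far r)
  tr_E : ∀ r, R.Rim r → (tr r.stE ↔ tr r)
  tr_far : ∀ r, R.Rim r → (tr (Rows.far r) ↔ tr r)
  ac_E : ∀ r, R.Rim r → (ac r.stE ↔ ac r)
  ac_tr : ∀ r, R.Rim r → tr r → ac r
  ac_far : ∀ r, R.Rim r → ac r ∨ ac (Rows.far r)

namespace All

variable {R : Rows P} {k m : ℕ} {tr ac : P.FSt → Prop} {A : P.Facet → LD P}
  (h : All R k m tr ac A)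

include h

lemma can0 {f : P.Facet} (hf : R.rw f = 0) : gcan R A f = (A f).can f := if_pos hf

lemma can_facet (f : P.Facet) : (gcan R A f).facet = f := by
  unfold gcan
  split_ifs with hf
  · exact (h.lc f hf).can_facet f (Jn.refl hf)
  · exact (exists_st f).choose_spec

/-- on the junction of `f` everything is given by `A f` -/
lemma canJ {f g : P.Facet} (hf : R.rw f = 0) (hg : Jn R f g) : gcan R A g = (A f).can g := by
  rw [h.can0 hg.1, h.same f g hf hg]

lemma cnJ {f g : P.Facet} (hf : R.rw f = 0) (hg : Jn R f g) : gcn A g = (A f).cn g := by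
  unfold gcn; rw [h.same f g hf hg]

lemma sLJ {f g : P.Facet} (hf : R.rw f = 0) (hg : Jn R f g) : gsL A g = (A f).sL g := by
  unfold gsL; rw [h.same f g hf hg]

lemma nLJ {f g : P.Facet} (hf : R.rw f = 0) (hg : Jn R f g) : gnL A g = (A f).nL g := by
  unfold gnL; rw [h.same f g hf hg]

lemma ofN {f g : P.Facet} (hf : R.rw f = 0) (hg : R.rw g = 0)
    (e : (gcan R A f).stN = gcan R A g) : Jn R f g := by
  have h1 := Jn.N (R := R) (s := gcan R A f) (by rw [h.can_facet]; exact hf)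
    (by rw [e, h.can_facet]; exact hg)
  rwa [e, h.can_facet, h.can_facet] at h1

lemma ofE {f g : P.Facet} (hf : R.rw f = 0) (hg : R.rw g = 0) {s : P.FSt} (hs : s.facet = f)
    (e : s.stE.facet = g) : Jn R f g := by
  have h1 := Jn.E (R := R) (s := s) (by rw [hs]; exact hf) (by rw [e]; exact hg)
  rwa [hs, e] at h1

/-! ## Rims -/

lemma rim0 {r : P.FSt} (hr : R.Rim r) : R.rw (Rows.jf r) = 0 := R.rw_symm hr

lemma jE {r : P.FSt} (hr : R.Rim r) : Jn R (Rows.jf r) (Rows.jf r.stE) :=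
  Jn.cyc hr ⟨1, rfl⟩

lemma ng_tr {r : P.FSt} (ht : tr r) : gng tr A r = (A (Rows.jf r)).ng r := if_pos ht
lemma z1_tr {r : P.FSt} (ht : tr r) : gz1 tr A r = (A (Rows.jf r)).z1 r := if_pos ht
lemma z2_tr {r : P.FSt} (ht : tr r) : gz2 tr A r = (A (Rows.jf r)).z2 r := if_pos ht

lemma faJ {f : P.Facet} {r : P.FSt} (hf : R.rw f = 0) (hr : Jn R f (Rows.jf r)) :
    gfa A r ↔ (A f).fa r := by
  unfold gfa; rw [h.same f _ hf hr]

lemma fbJ {f : P.Facet} {r : P.FSt} (hf : R.rw f = 0) (hr : Jn R f (Rows.jf r)) :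
    gfb A r ↔ (A f).fb r := by
  unfold gfb; rw [h.same f _ hf hr]

lemma ngJ {f : P.Facet} {r : P.FSt} (hf : R.rw f = 0) (hr : Jn R f (Rows.jf r)) (ht : tr r) :
    gng tr A r = (A f).ng r := by
  rw [h.ng_tr ht, h.same f _ hf hr]

lemma z1J {f : P.Facet} {r : P.FSt} (hf : R.rw f = 0) (hr : Jn R f (Rows.jf r)) (ht : tr r) :
    gz1 tr A r = (A f).z1 r := by
  rw [h.z1_tr ht, h.same f _ hf hr]

lemma z2J {f : P.Facet} {r : P.FSt} (hf : R.rw f = 0) (hr : Jn R f (Rows.jf r)) (ht : tr r) :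
    gz2 tr A r = (A f).z2 r := by
  rw [h.z2_tr ht, h.same f _ hf hr]

omit h in
lemma pow_dir_cyc (b : Bool) (n : ℕ) (r : P.FSt) : pE.SameCycle r ((dir b ^ n) r) := by
  unfold dir
  cases b
  · exact ⟨n, by simp⟩
  · exact ⟨-n, by rw [zpow_neg, zpow_natCast, ← inv_pow]; rfl⟩

lemma litJ {f : P.Facet} {r : P.FSt} (hf : R.rw f = 0) (hR : R.Rim r)
    (hr : Jn R f (Rows.jf r))
    (hl : Lit tr (A f).ng (A f).z1 (A f).z2 (A f).fa (A f).fb r) :
    Lit tr (gng tr A) (gz1 tr A) (gz2 tr A) (gfa A) (gfb A) r := by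
  intro ht
  rw [h.ngJ hf hr ht, h.z1J hf hr ht, h.z2J hf hr ht]
  have ha : ∀ s, pE.SameCycle r s → (gfa A s ↔ (A f).fa s) := by
    intro s hs
    refine h.faJ hf ⟨(Jn.cyc hR hs).1, fun Q hQ => (hr.2 Q hQ).trans ((Jn.cyc hR hs).2 Q hQ)⟩
  have hb : ∀ s, pE.SameCycle r s → (gfb A s ↔ (A f).fb s) := by
    intro s hs
    refine h.fbJ hf ⟨(Jn.cyc hR hs).1, fun Q hQ => (hr.2 Q hQ).trans ((Jn.cyc hR hs).2 Q hQ)⟩
  have hd : ∀ (b : Bool) (j : ℕ), pE.SameCycle r (((dir b).symm ^ j) r) := by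
    intro b j
    unfold dir
    cases b
    · exact ⟨-j, by rw [zpow_neg, zpow_natCast, ← inv_pow]; rfl⟩
    · exact ⟨j, by simp⟩
  obtain ⟨h1, h2⟩ := hl ht
  refine ⟨h1, fun hz => ?_⟩
  obtain ⟨h3, h4⟩ := h2 hz
  have e1 : srch (dir ((A f).ng r)).symm (gfa A) r = srch (dir ((A f).ng r)).symm (A f).fa r :=
    srch_congr fun j => ha _ (hd _ j)
  have e2 : srch (dir ((A f).ng r)).symm (gfb A) r = srch (dir ((A f).ng r)).symm (A f).fb r :=
    srch_congr fun j => hb _ (hd _ j)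
  have e3 : srch (dir ((A f).ng r)) (gfb A) r = srch (dir ((A f).ng r)) (A f).fb r :=
    srch_congr fun j => hb _ (pow_dir_cyc _ j r)
  rw [e1, e2, e3]
  exact ⟨h3, h4⟩

lemma wnJ {r : P.FSt} (hr : R.Rim r) (x : ℕ) :
    wnR k (gcan R A) (gsL A) (gnL A) (pN.symm r) x =
      wnR k (A (Rows.jf r)).can (A (Rows.jf r)).sL (A (Rows.jf r)).nL (pN.symm r) x := by
  have h0 := h.rim0 hr
  unfold wnR
  have e : (pN.symm r).facet = Rows.jf r := rfl
  rw [e, h.can0 h0]
  rfl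

lemma woJ {r : P.FSt} (hr : R.Rim r) :
    woR k (gcan R A) (gcn A) (pN.symm r) =
      woR k (A (Rows.jf r)).can (A (Rows.jf r)).cn (pN.symm r) := by
  have h0 := h.rim0 hr
  unfold woR
  have e : (pN.symm r).facet = Rows.jf r := rfl
  rw [e, h.can0 h0]
  rfl

open Classical in
/-- **The global certificate.** -/
noncomputable def toRX (hm : 1 ≤ m) (hk : k = 2 * m + 1) : RX P k where
  toRows := R
  m := m
  hm := hm
  hk := hk
  can := gcan R A
  can_facet := h.can_facet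
  cn := gcn A
  sL := gsL A
  nL := gnL A
  bal := fun f hf => (h.lc f hf).bal f (Jn.refl hf)
  bd := fun f hf => (h.lc f hf).bd f (Jn.refl hf)
  gN := fun f g hf hg e x hx => by
    have hJ := h.ofN hf hg e
    rw [h.nLJ hf (Jn.refl hf), h.sLJ hf hJ]
    refine (h.lc f hf).gN f g (Jn.refl hf) hJ ?_ x hx
    rw [← h.canJ hf (Jn.refl hf), ← h.canJ hf hJ]; exact e
  gN' := fun f hf h1 h2 x hx => by
    rw [h.nLJ hf (Jn.refl hf)]
    rw [h.canJ hf (Jn.refl hf)] at h1 h2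
    refine (h.lc f hf).gN' f (Jn.refl hf) h1 (fun g hg => ?_) x hx
    rw [← h.canJ hf hg]; exact h2 g
  gS' := fun g hg h1 h2 x hx => by
    rw [h.sLJ hg (Jn.refl hg)]
    rw [h.canJ hg (Jn.refl hg)] at h1 h2
    refine (h.lc g hg).gS' g (Jn.refl hg) h1 (fun f hf => ?_) x hx
    rw [← h.canJ hg hf]; exact h2 f
  gE := fun f g hf hg e => by
    have hJ := h.ofE hf hg (h.can_facet f) (by rw [e]; exact h.can_facet g)
    rw [h.cnJ hf (Jn.refl hf), h.cnJ hf hJ]
    refine (h.lc f hf).gE f g (Jn.refl hf) hJ ?_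
    rw [← h.canJ hf (Jn.refl hf), ← h.canJ hf hJ]; exact e
  gEr := fun f g hf hg e => by
    have hJ := h.ofE hf hg (h.can_facet f) (by rw [e, FSt.facet_r2]; exact h.can_facet g)
    rw [h.cnJ hf (Jn.refl hf), h.cnJ hf hJ]
    refine (h.lc f hf).gEr f g (Jn.refl hf) hJ ?_
    rw [← h.canJ hf (Jn.refl hf), ← h.canJ hf hJ]; exact e
  gWr := fun f g hf hg e => by
    have hJ := h.ofE (s := (gcan R A f).r2) hf hg (by rw [FSt.facet_r2]; exact h.can_facet f)
      (by rw [e]; exact h.can_facet g)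
    rw [h.cnJ hf (Jn.refl hf), h.cnJ hf hJ]
    refine (h.lc f hf).gWr f g (Jn.refl hf) hJ ?_
    rw [← h.canJ hf (Jn.refl hf), ← h.canJ hf hJ]; exact e
  gE' := fun f hf h1 h2 => by
    rw [h.cnJ hf (Jn.refl hf)]
    rw [h.canJ hf (Jn.refl hf)] at h1 h2
    refine (h.lc f hf).gE' f (Jn.refl hf) h1 (fun g hg => ?_)
    rw [← h.canJ hf hg]; exact h2 g
  gW' := fun f hf h1 h2 => by
    rw [h.cnJ hf (Jn.refl hf)]
    rw [h.canJ hf (Jn.refl hf)] at h1 h2
    refine (h.lc f hf).gW' f (Jn.refl hf) h1 (fun g hg => ?_)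
    rw [← h.canJ hf hg]; exact h2 g
  tr := tr
  tr_E := h.tr_E
  tr_far := h.tr_far
  ac := ac
  ac_E := h.ac_E
  ac_tr := h.ac_tr
  ac_far := h.ac_far
  ng := gng tr A
  ng_E := fun r hr => by
    by_cases ht : tr r
    · rw [h.ngJ (h.rim0 hr) (h.jE hr) ((h.tr_E r hr).2 ht), h.ng_tr ht]
      exact (h.lc _ (h.rim0 hr)).ng_E r hr (Jn.refl (h.rim0 hr)) ht
    · have ht' : ¬ tr r.stE := fun hc => ht ((h.tr_E r hr).1 hc)
      unfold gng; rw [if_neg ht, if_neg ht']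
  ng_far := fun r hr => by
    by_cases ht : tr r
    · rw [h.ng_tr ht, h.ng_tr ((h.tr_far r hr).2 ht)]
      exact (h.ty r hr ht).1.symm
    · have ht' : ¬ tr (Rows.far r) := fun hc => ht ((h.tr_far r hr).1 hc)
      unfold gng; rw [if_neg ht, if_neg ht']
  z1 := gz1 tr A
  z1_E := fun r hr => by
    by_cases ht : tr r
    · rw [h.z1J (h.rim0 hr) (h.jE hr) ((h.tr_E r hr).2 ht), h.z1_tr ht]
      exact (h.lc _ (h.rim0 hr)).z1_E r hr (Jn.refl (h.rim0 hr)) ht
    · have ht' : ¬ tr r.stE := fun hc => ht ((h.tr_E r hr).1 hc)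
      unfold gz1; rw [if_neg ht, if_neg ht']
  z1_far := fun r hr => by
    by_cases ht : tr r
    · rw [h.z1_tr ht, h.z1_tr ((h.tr_far r hr).2 ht)]
      exact (h.ty r hr ht).2.1.symm
    · have ht' : ¬ tr (Rows.far r) := fun hc => ht ((h.tr_far r hr).1 hc)
      unfold gz1; rw [if_neg ht, if_neg ht']
  z2 := gz2 tr A
  z2_E := fun r hr => by
    by_cases ht : tr r
    · rw [h.z2J (h.rim0 hr) (h.jE hr) ((h.tr_E r hr).2 ht), h.z2_tr ht]
      exact (h.lc _ (h.rim0 hr)).z2_E r hr (Jn.refl (h.rim0 hr)) ht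
    · have ht' : ¬ tr r.stE := fun hc => ht ((h.tr_E r hr).1 hc)
      unfold gz2; rw [if_neg ht, if_neg ht']
  z2_far := fun r hr => by
    by_cases ht : tr r
    · rw [h.z2_tr ht, h.z2_tr ((h.tr_far r hr).2 ht)]
      exact (h.ty r hr ht).2.2.symm
    · have ht' : ¬ tr (Rows.far r) := fun hc => ht ((h.tr_far r hr).1 hc)
      unfold gz2; rw [if_neg ht, if_neg ht']
  z12 := fun r hr => by
    by_cases ht : tr r
    · rw [h.z1_tr ht, h.z2_tr ht]
      exact (h.lc _ (h.rim0 hr)).z12 r hr (Jn.refl (h.rim0 hr)) ht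
    · unfold gz1; rw [if_neg ht]
      intro hc; exact absurd hc (by decide)
  fa := gfa A
  fb := gfb A
  fa_ac := fun r hr => (h.lc _ (h.rim0 hr)).fa_ac r hr (Jn.refl (h.rim0 hr))
  fa_ex := fun r hr ha => by
    obtain ⟨a, ⟨h1, h2⟩, h3⟩ := (h.lc _ (h.rim0 hr)).fa_ex r hr (Jn.refl (h.rim0 hr)) ha
    refine ⟨a, ⟨h1, (h.faJ (h.rim0 hr) (Jn.cyc hr h1)).2 h2⟩, ?_⟩
    rintro b ⟨h4, h5⟩
    exact h3 b ⟨h4, (h.faJ (h.rim0 hr) (Jn.cyc hr h4)).1 h5⟩
  fb_ex := fun r hr ht => by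
    obtain ⟨a, ⟨h1, h2⟩, h3⟩ := (h.lc _ (h.rim0 hr)).fb_ex r hr (Jn.refl (h.rim0 hr)) ht
    refine ⟨a, ⟨h1, (h.fbJ (h.rim0 hr) (Jn.cyc hr h1)).2 h2⟩, ?_⟩
    rintro b ⟨h4, h5⟩
    exact h3 b ⟨h4, (h.fbJ (h.rim0 hr) (Jn.cyc hr h4)).1 h5⟩
  arc := fun r hr ht hf n hn hb => by
    rw [h.ng_tr ht] at hb
    refine (h.lc _ (h.rim0 hr)).arc r hr (Jn.refl (h.rim0 hr)) ht hf n hn ?_
    exact (h.fbJ (h.rim0 hr) (Jn.cyc hr (pow_dir_cyc _ n r))).1 hb
  rn := fun r hr x hx => by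
    rw [h.wnJ hr, (h.lc _ (h.rim0 hr)).rn r hr (Jn.refl (h.rim0 hr)) x hx]
    by_cases ht : tr r
    · rw [if_pos ht, if_pos ht, h.ng_tr ht, h.z1_tr ht, h.z2_tr ht]
      rfl
    · rw [if_neg ht, if_neg ht]
      have e : gfa A r.stE ↔ (A (Rows.jf r)).fa r.stE := h.faJ (h.rim0 hr) (h.jE hr)
      simp only [e]
      rfl
  ro := fun r hr => by
    rw [h.woJ hr, (h.lc _ (h.rim0 hr)).ro r hr (Jn.refl (h.rim0 hr))]
    by_cases ht : tr r
    · rw [h.z1_tr ht, h.z2_tr ht]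
      rfl
    · rw [if_neg (fun hc => ht hc.1), if_neg (fun hc => ht hc.1)]
  cov := fun f hf x hx w => by
    obtain ⟨z, h1, h2⟩ := (h.lc f hf).cov f (Jn.refl hf) x hx w
    have e0 := h.canJ hf (Jn.refl hf)
    refine ⟨z, ?_, ?_⟩
    · intro y hy hyz
      obtain ⟨g, hg, e⟩ := h1 y hy hyz
      exact ⟨g, hg.1, by rw [e0, h.canJ hf hg]; exact e⟩
    · rw [e0]
      rcases h2 with ⟨g, hg, e, h3⟩ | ⟨hz, hR, hl⟩ | ⟨hz, hR, hl⟩
      · left
        exact ⟨g, hg.1, by rw [h.canJ hf hg]; exact e, by rw [h.cnJ hf hg]; exact h3⟩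
      · right; left
        refine ⟨hz, hR, h.litJ hf hR ?_ hl⟩
        obtain ⟨g, hg, e⟩ := h1 (z - 1) (by rw [Set.mem_uIcc]; left; omega) (by omega)
        have e2 : pN.symm ((pN ^ z) ((A f).can f)) = (pN ^ (z - 1)) ((A f).can f) := by
          rw [zpow_sub_one, Equiv.Perm.mul_apply]
          have hcomm : (pN ^ z) (pN.symm ((A f).can f)) = pN.symm ((pN ^ z) ((A f).can f)) := by
            have : (pN : Equiv.Perm P.FSt) ^ z * pN⁻¹ = pN⁻¹ * pN ^ z := by
              rw [← zpow_neg_one, ← zpow_add, ← zpow_add, add_comm]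
            exact congrArg (fun e : Equiv.Perm P.FSt => e ((A f).can f)) this
          exact hcomm.symm
        have e3 : Rows.jf ((pN ^ z) ((A f).can f)) = g := by
          unfold Rows.jf
          rw [e2, e]
          exact (h.lc f hf).can_facet g hg
        rw [e3]; exact hg
      · right; right
        refine ⟨hz, hR, h.litJ hf hR ?_ hl⟩
        obtain ⟨g, hg, e⟩ := h1 (z + 1) (by rw [Set.mem_uIcc]; right; omega) (by omega)
        have e3 : Rows.jf ((pN ^ z) ((A f).can f)).r2 = g := by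
          unfold Rows.jf
          rw [pN_symm_r2, FSt.facet_r2]
          have e4 : ((pN ^ z) ((A f).can f)).stN = (pN ^ (z + 1)) ((A f).can f) := by
            have : (pN : Equiv.Perm P.FSt) ^ (z + 1) = pN * pN ^ z := by
              rw [add_comm, zpow_add, zpow_one]
            rw [this]; rfl
          rw [e4, e]
          exact (h.lc f hf).can_facet g hg
        rw [e3]; exact hg

end All

end Pool.Agent.MP42R
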