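import Pool.Agent.MP42.R.Glob

/-!
# The global certificate is connected
-/

set_option autoImplicit false
set_option linter.unusedSectionVars false

namespace Pool.Agent.MP42R

open Pool.Agent.Helper55.UNF Pool.Agent.Helper55.UNF.GridSolid Pool.Agent.MP42G
open Pool.Agent.MP42H Pool.Agent.MP42X

variable {P : GridSolid}

namespace All

variable {R : Rows P} {k m : ℕ} {tr ac : P.FSt → Prop} {A : P.Facet → LD P}
  (h : All R k m tr ac A)

include h

lemma vnJ {f : P.Facet} {s : P.FSt} (hf : R.rw f = 0) (hs : Jn R f s.facet)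
    (S N : P.Facet → ℕ → Prop) (x : ℕ) :
    (A f).vn k S N s x ↔ (if gcan R A s.facet = s then N s.facet x else S s.facet (k - 1 - x)) := by
  unfold LD.vn
  rw [h.canJ hf hs]

lemma voJ {f : P.Facet} {s : P.FSt} (hf : R.rw f = 0) (hs : Jn R f s.facet)
    (V : P.Facet → ℕ → ℕ → Prop) :
    (A f).vo k V s ↔ (if gcan R A s.facet = s.rL then V s.facet k 0 else V s.facet 0 0) := by
  unfold LD.vo
  rw [h.canJ hf hs]

theorem conn (hm : 1 ≤ m) (hk : k = 2 * m + 1) : (h.toRX hm hk).Conn := by
  classical
  intro V S N hI hC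
  have key : ∀ f, R.rw f = 0 → ∃ q : Prop,
      (∀ g x i, Jn R f g → x ≤ k → i < gcn A g x → (V g x i ↔ q)) ∧
      (∀ g x, Jn R f g → x < k → gsL A g x ≠ Ln.z → (S g x ↔ q)) := by
    intro f hf
    have hloc := (h.lc f hf).conn V S N
      { cell := fun g hg x hx i hi => by
          have := hI.cell g hg.1 x hx i (by
            show i < gcn A g x + en (gsL A g x) + es (gnL A g x)
            rw [h.cnJ hf hg, h.sLJ hf hg, h.nLJ hf hg]; exact hi)
          have e1 : (h.toRX hm hk).cn g = (A f).cn g := h.cnJ hf hg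
          have e2 : (h.toRX hm hk).sL g = (A f).sL g := h.sLJ hf hg
          rw [e1, e2] at this
          exact this
        gN := fun g1 g2 h1 h2 e x hx hz => by
          refine hI.gN g1 g2 h1.1 h2.1 ?_ x hx ?_
          · show (gcan R A g1).stN = gcan R A g2
            rw [h.canJ hf h1, h.canJ hf h2]; exact e
          · show gnL A g1 x ≠ Ln.z
            rw [h.nLJ hf h1]; exact hz
        gE := fun g1 g2 h1 h2 e i hi => by
          refine hI.gE g1 g2 h1.1 h2.1 ?_ i ?_
          · show (gcan R A g1).stE = gcan R A g2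
            rw [h.canJ hf h1, h.canJ hf h2]; exact e
          · show i < gcn A g1 k
            rw [h.cnJ hf h1]; exact hi
        gEr := fun g1 g2 h1 h2 e i hi => by
          have := hI.gEr g1 g2 h1.1 h2.1 (by
            show (gcan R A g1).stE = (gcan R A g2).r2
            rw [h.canJ hf h1, h.canJ hf h2]; exact e) i (by
            show i < gcn A g1 k
            rw [h.cnJ hf h1]; exact hi)
          have e1 : (h.toRX hm hk).cn g1 = (A f).cn g1 := h.cnJ hf h1
          rw [e1] at this
          exact this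
        gWr := fun g1 g2 h1 h2 e i hi => by
          have := hI.gWr g1 g2 h1.1 h2.1 (by
            show (gcan R A g1).r2.stE = gcan R A g2
            rw [h.canJ hf h1, h.canJ hf h2]; exact e) i (by
            show i < gcn A g1 0
            rw [h.cnJ hf h1]; exact hi)
          have e1 : (h.toRX hm hk).cn g1 = (A f).cn g1 := h.cnJ hf h1
          rw [e1] at this
          exact this }
      { tree := fun a b ha hj ht hs hfa hfb => by
          have hb := Rows.Rim.cyc R ha hs
          have htb : tr b := (tr_cyc h.tr_E ha hs).2 ht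
          have hjb : Jn R f (Rows.jf b) :=
            ⟨(Jn.cyc ha hs).1, fun Q hQ => (hj.2 Q hQ).trans ((Jn.cyc ha hs).2 Q hQ)⟩
          have := hC.tree a b ha ht hs ((h.faJ hf hj).2 hfa) ((h.fbJ hf hjb).2 hfb)
          have e1 : ∀ (z : Bool) (r : P.FSt), Jn R f (Rows.jf r) → tr r →
              ((A f).vf k V S N z r ↔ (h.toRX hm hk).vf V S N z r) := by
            intro z r hr htr
            unfold LD.vf RX0.vf
            cases z
            · rw [if_neg (by decide), if_neg (by decide), h.vnJ hf (s := pN.symm r) hr]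
              show _ ↔ (if gcan R A (pN.symm r).facet = pN.symm r
                then N (pN.symm r).facet (fcol k (gng tr A r))
                else S (pN.symm r).facet (k - 1 - fcol k (gng tr A r)))
              rw [h.ngJ hf hr htr]
            · rw [if_pos rfl, if_pos rfl, h.voJ hf (s := pN.symm r) hr]
              rfl
          rw [e1 _ a hj ht, e1 _ b hjb htb]
          have e2 : (h.toRX hm hk).z1 a = (A f).z1 a := h.z1J hf hj ht
          have e3 : (h.toRX hm hk).z2 b = (A f).z2 b := h.z2J hf hjb htb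
          rw [← e2, ← e3]
          exact this
        cut := fun r hr hj ht hfa => by
          have hjE : Jn R f (Rows.jf r.stE) :=
            ⟨(h.jE hr).1, fun Q hQ => (hj.2 Q hQ).trans ((h.jE hr).2 Q hQ)⟩
          have := hC.cut r hr ht ((h.faJ hf hjE).2 hfa)
          rw [h.vnJ hf (s := pN.symm r.stE) hjE, h.vnJ hf (s := pN.symm r) hj]
          exact this }
    obtain ⟨q, h1, h2⟩ := hloc
    refine ⟨q, ?_, ?_⟩
    · intro g x i hg hx hi
      exact h1 g x i hg hx (by rw [← h.cnJ hf hg]; exact hi)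
    · intro g x hg hx hz
      exact h2 g x hg hx (by rw [← h.sLJ hf hg]; exact hz)
  have key2 : ∀ f, R.rw f = 0 → ∀ q : Prop,
      ((∀ g x i, Jn R f g → x ≤ k → i < gcn A g x → (V g x i ↔ q)) ∧
      (∀ g x, Jn R f g → x < k → gsL A g x ≠ Ln.z → (S g x ↔ q))) →
      (∀ x i, x ≤ k → i < gcn A f x → (V f x i ↔
        ((∀ g x i, Jn R f g → x ≤ k → i < gcn A g x → V g x i) ∧
          (∀ g x, Jn R f g → x < k → gsL A g x ≠ Ln.z → S g x)))) ∧
      (∀ x, x < k → gsL A f x ≠ Ln.z → (S f x ↔
        ((∀ g x i, Jn R f g → x ≤ k → i < gcn A g x → V g x i) ∧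
          (∀ g x, Jn R f g → x < k → gsL A g x ≠ Ln.z → S g x)))) := by
    rintro f hf q ⟨h1, h2⟩
    by_cases hq : q
    · have hT : (∀ g x i, Jn R f g → x ≤ k → i < gcn A g x → V g x i) ∧
          (∀ g x, Jn R f g → x < k → gsL A g x ≠ Ln.z → S g x) :=
        ⟨fun g x i hg hx hi => (h1 g x i hg hx hi).2 hq, fun g x hg hx hz => (h2 g x hg hx hz).2 hq⟩
      exact ⟨fun x i hx hi => iff_of_true (hT.1 f x i (Jn.refl hf) hx hi) hT,
        fun x hx hz => iff_of_true (hT.2 f x (Jn.refl hf) hx hz) hT⟩
    · refine ⟨fun x i hx hi => ?_, fun x hx hz => ?_⟩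
      · have hv : ¬ V f x i := fun hc => hq ((h1 f x i (Jn.refl hf) hx hi).1 hc)
        exact iff_of_false hv (fun hT => hv (hT.1 f x i (Jn.refl hf) hx hi))
      · have hv : ¬ S f x := fun hc => hq ((h2 f x (Jn.refl hf) hx hz).1 hc)
        exact iff_of_false hv (fun hT => hv (hT.2 f x (Jn.refl hf) hx hz))
  refine ⟨fun f => (∀ g x i, Jn R f g → x ≤ k → i < gcn A g x → V g x i) ∧
    (∀ g x, Jn R f g → x < k → gsL A g x ≠ Ln.z → S g x), ?_, ?_, ?_⟩
  · intro s h0 h1
    have e := (Jn.E (R := R) h0 h1).eq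
    beta_reduce
    rw [e]
  · intro f x i hf hx hi
    obtain ⟨q, hq⟩ := key f hf
    exact (key2 f hf q hq).1 x i hx hi
  · intro f x hf hx hz
    obtain ⟨q, hq⟩ := key f hf
    exact (key2 f hf q hq).2 x hx hz

end All

end Pool.Agent.MP42R
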