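import Pool.Agent.MP42.R.RConn
import Pool.Agent.MP42.X.Main

/-!
# Local junction certificates

`Jn R f`: the junction of the facet `f`.  `LD P`: the data of a certificate of one junction, `LC`:
the conditions on one junction `J` (the fields of `RX` restricted to the facets of `J` and to the
rims of `J`, and the connectivity of the closed-up junction).  `tr`: the tree bands, `ac`: the rims
that are met by the curve.
-/

set_option autoImplicit false
set_option linter.unusedSectionVars false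

namespace Pool.Agent.MP42R

open Pool.Agent.Helper55.UNF Pool.Agent.Helper55.UNF.GridSolid Pool.Agent.MP42G
open Pool.Agent.MP42H Pool.Agent.MP42X

variable {P : GridSolid}

/-- the facets of the junction of the facet `f` -/
def Jn (R : Rows P) (f g : P.Facet) : Prop := R.rw g = 0 ∧ ∀ Q, R.QJ Q → (Q f ↔ Q g)

/-- the data of a certificate of one junction -/
structure LD (P : GridSolid) where
  can : P.Facet → P.FSt
  /-- number of strands over the line `x` -/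
  cn : P.Facet → ℕ → ℕ
  /-- lanes over the south side -/
  sL : P.Facet → ℕ → Ln
  /-- lanes over the north side -/
  nL : P.Facet → ℕ → Ln
  /-- the labels that are not `0` are negative -/
  ng : P.FSt → Bool
  /-- the label of strand 1 is `0` -/
  z1 : P.FSt → Bool
  /-- the label of strand 2 is `0` -/
  z2 : P.FSt → Bool
  /-- the facet of the foot of strand 1 -/
  fa : P.FSt → Prop
  /-- the facet of the foot of strand 2 -/
  fb : P.FSt → Prop

namespace LD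

variable (D : LD P) (k : ℕ)

open Classical in
/-- value of the lane over the north side of the state `s` in column `x` -/
noncomputable def vn (S N : P.Facet → ℕ → Prop) (s : P.FSt) (x : ℕ) : Prop :=
  if D.can s.facet = s then N s.facet x else S s.facet (k - 1 - x)

open Classical in
/-- value of the turned strand over the north side of the state `s` -/
noncomputable def vo (V : P.Facet → ℕ → ℕ → Prop) (s : P.FSt) : Prop :=
  if D.can s.facet = s.rL then V s.facet k 0 else V s.facet 0 0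

/-- value of a foot, `z`: the label is `0` -/
noncomputable def vf (V : P.Facet → ℕ → ℕ → Prop) (S N : P.Facet → ℕ → Prop) (z : Bool)
    (r : P.FSt) : Prop :=
  if z then D.vo k V (pN.symm r) else D.vn k S N (pN.symm r) (fcol k (D.ng r))

/-- the values are invariant in the junction -/
structure Inv (J : P.Facet → Prop) (V : P.Facet → ℕ → ℕ → Prop) (S N : P.Facet → ℕ → Prop) :
    Prop where
  cell : ∀ f, J f → ∀ x < k, ∀ i < D.cn f x + en (D.sL f x) + es (D.nL f x),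
    (inR (D.sL f x) (D.cn f x) (V f x) (S f x) (N f x) i ↔
      outR (D.sL f x) (D.cn f (x + 1)) (V f (x + 1)) (S f x) (N f x) i)
  gN : ∀ f g, J f → J g → (D.can f).stN = D.can g → ∀ x < k, D.nL f x ≠ Ln.z → (N f x ↔ S g x)
  gE : ∀ f g, J f → J g → (D.can f).stE = D.can g → ∀ i < D.cn f k, (V f k i ↔ V g 0 i)
  gEr : ∀ f g, J f → J g → (D.can f).stE = (D.can g).r2 → ∀ i < D.cn f k,
    (V f k i ↔ V g k (D.cn f k - 1 - i))
  gWr : ∀ f g, J f → J g → (D.can f).r2.stE = D.can g → ∀ i < D.cn f 0,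
    (V f 0 i ↔ V g 0 (D.cn f 0 - 1 - i))

/-- the rims of the junction are closed up -/
structure Closed (R : Rows P) (tr : P.FSt → Prop) (J : P.Facet → Prop)
    (V : P.Facet → ℕ → ℕ → Prop) (S N : P.Facet → ℕ → Prop) : Prop where
  tree : ∀ a b, R.Rim a → J (Rows.jf a) → tr a → pE.SameCycle a b → D.fa a → D.fb b →
    (D.vf k V S N (D.z1 a) a ↔ D.vf k V S N (D.z2 b) b)
  cut : ∀ r, R.Rim r → J (Rows.jf r) → ¬ tr r → D.fa r.stE →
    (D.vn k S N (pN.symm r.stE) 0 ↔ D.vn k S N (pN.symm r) (k - 1))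

end LD

open Classical in
/-- A certificate of the junction `J` with the data `D`. -/
structure LC (R : Rows P) (k m : ℕ) (tr ac : P.FSt → Prop) (J : P.Facet → Prop) (D : LD P) :
    Prop where
  can_facet : ∀ f, J f → (D.can f).facet = f
  bal : ∀ f, J f → ∀ x < k, (D.cn f (x + 1) : ℤ) = D.cn f x + vl (D.sL f x) - vl (D.nL f x)
  bd : ∀ f, J f → ∀ x ≤ k, D.cn f x ≤ m
  gN : ∀ f g, J f → J g → (D.can f).stN = D.can g → ∀ x < k, D.nL f x = D.sL g x
  gN' : ∀ f, J f → R.rw (D.can f).stN.facet = 0 → (∀ g, J g → (D.can f).stN ≠ D.can g) →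
    ∀ x < k, D.nL f x = Ln.z
  gS' : ∀ g, J g → R.rw (D.can g).r2.stN.facet = 0 → (∀ f, J f → (D.can f).stN ≠ D.can g) →
    ∀ x < k, D.sL g x = Ln.z
  gE : ∀ f g, J f → J g → (D.can f).stE = D.can g → D.cn f k = D.cn g 0
  gEr : ∀ f g, J f → J g → (D.can f).stE = (D.can g).r2 → D.cn f k = D.cn g k
  gWr : ∀ f g, J f → J g → (D.can f).r2.stE = D.can g → D.cn f 0 = D.cn g 0
  gE' : ∀ f, J f → R.rw (D.can f).stE.facet = 0 →
    (∀ g, J g → (D.can f).stE ≠ D.can g ∧ (D.can f).stE ≠ (D.can g).r2) → D.cn f k = 0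
  gW' : ∀ f, J f → R.rw (D.can f).r2.stE.facet = 0 →
    (∀ g, J g → (D.can f).r2.stE ≠ D.can g ∧ (D.can f).r2.stE ≠ (D.can g).r2) → D.cn f 0 = 0
  ng_E : ∀ r, R.Rim r → J (Rows.jf r) → tr r → D.ng r.stE = D.ng r
  z1_E : ∀ r, R.Rim r → J (Rows.jf r) → tr r → D.z1 r.stE = D.z1 r
  z2_E : ∀ r, R.Rim r → J (Rows.jf r) → tr r → D.z2 r.stE = D.z2 r
  z12 : ∀ r, R.Rim r → J (Rows.jf r) → tr r → D.z1 r = true → D.z2 r = true
  fa_ac : ∀ r, R.Rim r → J (Rows.jf r) → D.fa r → ac r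
  fa_ex : ∀ r, R.Rim r → J (Rows.jf r) → ac r → ∃! a, pE.SameCycle r a ∧ D.fa a
  fb_ex : ∀ r, R.Rim r → J (Rows.jf r) → tr r → ∃! b, pE.SameCycle r b ∧ D.fb b
  arc : ∀ r, R.Rim r → J (Rows.jf r) → tr r → D.fa r → ∀ n ≤ 2, ¬ D.fb ((dir (D.ng r) ^ n) r)
  rn : ∀ r, R.Rim r → J (Rows.jf r) → ∀ x < k, wnR k D.can D.sL D.nL (pN.symm r) x =
    if tr r then
      (if ((D.fa r ∧ D.z1 r = false) ∨ (D.fb r ∧ D.z2 r = false)) ∧ x = fcol k (D.ng r)
        then flet (D.ng r) else Ln.z)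
    else (if D.fa r ∧ x = 0 then Ln.n else if D.fa r.stE ∧ x + 1 = k then Ln.s else Ln.z)
  ro : ∀ r, R.Rim r → J (Rows.jf r) → woR k D.can D.cn (pN.symm r) =
    if tr r ∧ ((D.fa r ∧ D.z1 r = true) ∨ (D.fb r ∧ D.z2 r = true)) then 1 else 0
  cov : ∀ f, J f → ∀ x < k, ∀ w : Bool, ∃ z : ℤ,
    (∀ y ∈ Set.uIcc 0 z, y ≠ z → ∃ g, J g ∧ (pN ^ y) (D.can f) = D.can g) ∧
    ((∃ g, J g ∧ (pN ^ z) (D.can f) = D.can g ∧ 0 < D.cn g (if w then x else x + 1)) ∨
     (0 < z ∧ R.Rim ((pN ^ z) (D.can f)) ∧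
       Lit tr D.ng D.z1 D.z2 D.fa D.fb ((pN ^ z) (D.can f))) ∨
     (z < 0 ∧ R.Rim ((pN ^ z) (D.can f)).r2 ∧
       Lit tr D.ng D.z1 D.z2 D.fa D.fb ((pN ^ z) (D.can f)).r2))
  conn : ∀ V S N, D.Inv k J V S N → D.Closed k R tr J V S N → ∃ q : Prop,
    (∀ f x i, J f → x ≤ k → i < D.cn f x → (V f x i ↔ q)) ∧
    (∀ f x, J f → x < k → D.sL f x ≠ Ln.z → (S f x ↔ q))

/-! ## Junctions -/

section Jn

variable {R : Rows P}

lemma Jn.refl {f : P.Facet} (h : R.rw f = 0) : Jn R f f := ⟨h, fun _ _ => Iff.rfl⟩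

lemma Jn.eq {f g : P.Facet} (h : Jn R f g) : Jn R f = Jn R g := by
  funext u
  apply propext
  constructor
  · rintro ⟨h1, h2⟩
    exact ⟨h1, fun Q hQ => (h.2 Q hQ).symm.trans (h2 Q hQ)⟩
  · rintro ⟨h1, h2⟩
    exact ⟨h1, fun Q hQ => (h.2 Q hQ).trans (h2 Q hQ)⟩

lemma Jn.E {s : P.FSt} (h0 : R.rw s.facet = 0) (h1 : R.rw s.stE.facet = 0) :
    Jn R s.facet s.stE.facet := ⟨h1, fun _ hQ => hQ s h0 h1⟩

lemma Jn.N {s : P.FSt} (h0 : R.rw s.facet = 0) (h1 : R.rw s.stN.facet = 0) :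
    Jn R s.facet s.stN.facet := by
  have h2 := Jn.E (R := R) (s := s.rL) h0 h1
  exact h2

lemma QJ_Jn (f : P.Facet) : R.QJ (Jn R f) := by
  intro s h0 h1
  constructor
  · rintro ⟨-, h2⟩
    exact ⟨h1, fun Q hQ => (h2 Q hQ).trans (hQ s h0 h1)⟩
  · rintro ⟨-, h2⟩
    exact ⟨h0, fun Q hQ => (h2 Q hQ).trans (hQ s h0 h1).symm⟩

lemma Jn.cyc {r s : P.FSt} (h : R.Rim r) (hs : pE.SameCycle r s) :
    Jn R (Rows.jf r) (Rows.jf s) :=
  ⟨R.rw_symm (Rows.Rim.cyc R h hs), fun _ hQ => (Rows.QJ.jf R hQ h hs).symm⟩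

end Jn

end Pool.Agent.MP42R
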