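import Pool.Agent.MP42.R.RX
import Pool.Agent.MP42.H.Basic

/-!
# Router layer: the values of the strands

`V f x i` is the value of the strand number `i` (from the south) over the line `x` of the facet
`f`, `S f x` and `N f x` are the values of the lanes over the south and the north side.
-/

set_option autoImplicit false
set_option linter.unusedSectionVars false

namespace Pool.Agent.MP42R

open Pool.Agent.Helper55.UNF Pool.Agent.Helper55.UNF.GridSolid Pool.Agent.MP42G
open Pool.Agent.MP42H Pool.Agent.MP42X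

variable {P : GridSolid}

/-- the strands that come into a column (`a`: lane in the south, `c` strands in the west), from
south to north -/
def inR (a : Ln) (c : ℕ) (v : ℕ → Prop) (s n : Prop) (i : ℕ) : Prop :=
  if i < en a then s else if i < en a + c then v (i - en a) else n

/-- the strands that go out of a column (`a`: lane in the south, `c'` strands in the east), from
south to north -/
def outR (a : Ln) (c' : ℕ) (v : ℕ → Prop) (s n : Prop) (i : ℕ) : Prop :=
  if i < es a then s else if i < es a + c' then v (i - es a) else n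

/-- the values of the lanes over the south side -/
def SS (χ : P.Facet → ℕ → ℕ → Prop) (f : P.Facet) (x : ℕ) : Prop := χ f x 0

/-- the values of the lanes over the north side -/
def NN (k : ℕ) (χ : P.Facet → ℕ → ℕ → Prop) (f : P.Facet) (x : ℕ) : Prop := χ f x k

namespace RX0

variable {k : ℕ} (R : RX0 P k)

/-- the values are invariant in the junctions -/
structure Inv (V : P.Facet → ℕ → ℕ → Prop) (S N : P.Facet → ℕ → Prop) : Prop where
  cell : ∀ f, R.rw f = 0 → ∀ x < k, ∀ i < R.cn f x + en (R.sL f x) + es (R.nL f x),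
    (inR (R.sL f x) (R.cn f x) (V f x) (S f x) (N f x) i ↔
      outR (R.sL f x) (R.cn f (x + 1)) (V f (x + 1)) (S f x) (N f x) i)
  gN : ∀ f g, R.rw f = 0 → R.rw g = 0 → (R.can f).stN = R.can g → ∀ x < k, R.nL f x ≠ Ln.z →
    (N f x ↔ S g x)
  gE : ∀ f g, R.rw f = 0 → R.rw g = 0 → (R.can f).stE = R.can g → ∀ i < R.cn f k,
    (V f k i ↔ V g 0 i)
  gEr : ∀ f g, R.rw f = 0 → R.rw g = 0 → (R.can f).stE = (R.can g).r2 → ∀ i < R.cn f k,
    (V f k i ↔ V g k (R.cn f k - 1 - i))
  gWr : ∀ f g, R.rw f = 0 → R.rw g = 0 → (R.can f).r2.stE = R.can g → ∀ i < R.cn f 0,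
    (V f 0 i ↔ V g 0 (R.cn f 0 - 1 - i))

open Classical in
/-- value of the lane over the north side of the state `s` in column `x` -/
noncomputable def vn (S N : P.Facet → ℕ → Prop) (s : P.FSt) (x : ℕ) : Prop :=
  if R.can s.facet = s then N s.facet x else S s.facet (k - 1 - x)

open Classical in
/-- value of the turned strand over the north side of the state `s` -/
noncomputable def vo (V : P.Facet → ℕ → ℕ → Prop) (s : P.FSt) : Prop :=
  if R.can s.facet = s.rL then V s.facet k 0 else V s.facet 0 0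

/-- value of a foot, `z`: the label is `0` -/
noncomputable def vf (V : P.Facet → ℕ → ℕ → Prop) (S N : P.Facet → ℕ → Prop) (z : Bool)
    (r : P.FSt) : Prop :=
  if z then R.vo V (pN.symm r) else R.vn S N (pN.symm r) (fcol k (R.ng r))

/-- the rims are closed up -/
structure Closed (V : P.Facet → ℕ → ℕ → Prop) (S N : P.Facet → ℕ → Prop) : Prop where
  tree : ∀ a b, R.Rim a → R.tr a → pE.SameCycle a b → R.fa a → R.fb b →
    (R.vf V S N (R.z1 a) a ↔ R.vf V S N (R.z2 b) b)
  cut : ∀ r, R.Rim r → ¬ R.tr r → R.fa r.stE →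
    (R.vn S N (pN.symm r.stE) 0 ↔ R.vn S N (pN.symm r) (k - 1))

/-- constant on the junctions -/
structure ConstJ (V : P.Facet → ℕ → ℕ → Prop) (S N : P.Facet → ℕ → Prop) (Q : P.Facet → Prop) :
    Prop where
  adj : R.QJ Q
  ver : ∀ f x i, R.rw f = 0 → x ≤ k → i < R.cn f x → (V f x i ↔ Q f)
  hor : ∀ f x, R.rw f = 0 → x < k → R.sL f x ≠ Ln.z → (S f x ↔ Q f)

/-- the closed-up junctions are closed curves -/
def Conn : Prop := ∀ V S N, R.Inv V S N → R.Closed V S N → ∃ Q, R.ConstJ V S N Q

/-- the values of the strands -/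
def VV (ψ : P.Facet → ℕ → ℕ → Prop) (f : P.Facet) (x i : ℕ) : Prop :=
  ψ f x (rho R.m (R.cn f x) i)

lemma rho_one {m : ℕ} : rho m 1 0 = m := by unfold rho; omega

/-- the foot of a turned strand: one strand -/
lemma wo_one {r : P.FSt} (h : R.Rim r) (ht : R.tr r)
    (h1 : (R.fa r ∧ R.z1 r = true) ∨ (R.fb r ∧ R.z2 r = true)) :
    woR k R.can R.cn (pN.symm r) = 1 := by
  rw [R.ro r h, if_pos ⟨ht, h1⟩]

variable {ψ χ : P.Facet → ℕ → ℕ → Prop}

lemma vn_eq (s : P.FSt) (x : ℕ) :
    R.vn (SS χ) (NN k χ) s x ↔ R.toJX0.vn χ s x := Iff.rfl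

lemma vo_eq {s : P.FSt} (h : woR k R.can R.cn s = 1) :
    R.vo (R.VV ψ) s ↔ R.toJX0.vo ψ s := by
  unfold vo JX0.vo
  unfold woR at h
  show (if R.can s.facet = s.rL then _ else _) ↔ (if R.can s.facet = s.rL then _ else _)
  by_cases h1 : R.can s.facet = s.rL
  · rw [if_pos h1] at h
    rw [if_pos h1, if_pos h1]
    show ψ s.facet k (rho R.m (R.cn s.facet k) 0) ↔ ψ s.facet k R.m
    rw [h, rho_one]
  · rw [if_neg h1] at h
    rw [if_neg h1, if_neg h1]
    by_cases h2 : R.can s.facet = s.rR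
    · rw [if_pos h2] at h
      show ψ s.facet 0 (rho R.m (R.cn s.facet 0) 0) ↔ ψ s.facet 0 R.m
      rw [h, rho_one]
    · rw [if_neg h2] at h
      exact absurd h (by decide)

lemma vf_eq {r : P.FSt} (h : R.Rim r) (ht : R.tr r) {z : Bool}
    (h1 : (R.fa r ∧ R.z1 r = z) ∨ (R.fb r ∧ R.z2 r = z)) :
    R.vf (R.VV ψ) (SS χ) (NN k χ) z r ↔ R.toJX0.vf ψ χ z r := by
  unfold vf JX0.vf
  cases z with
  | true =>
    rw [if_pos rfl, if_pos rfl]
    exact R.vo_eq (R.wo_one h ht h1)
  | false =>
    rw [if_neg (by decide), if_neg (by decide)]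
    exact R.vn_eq _ _

theorem inv_of (I : R.toJX0.Inv ψ χ) : R.Inv (R.VV ψ) (SS χ) (NN k χ) where
  cell := fun f hf x hx i hi => by
    have hk := R.hk
    have h1 := I.cell f hf
    have h2 : CellRel (2 * R.m + 1) (tpr R.m (R.cn f)) (tla R.m (R.cn f) (R.sL f) (R.nL f))
        (ψ f) (χ f) := by
      rw [← hk]; exact h1
    have h3 := (R.fac f hf).rel R.hm h2 (x := x) (by omega) i hi
    unfold inV outV at h3
    unfold inR outR VV SS NN
    rw [← hk] at h3
    exact h3
  gN := fun f g hf hg h x hx hz => by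
    have h1 := I.gN f g hf hg h x hx (by
      show R.la f x k ≠ Ln.z
      rw [R.la_top]; exact hz)
    exact h1
  gE := fun f g hf hg h i hi => by
    have hk := R.hk
    have hb := R.bd f hf k le_rfl
    have h1 := I.gE f g hf hg h (rho R.m (R.cn f k) i)
      (by have := rho_lt hb hi; omega) (cpr_rho hb hi)
    unfold VV
    rw [← R.gE f g hf hg h]
    exact h1
  gEr := fun f g hf hg h i hi => by
    have hk := R.hk
    have hb := R.bd f hf k le_rfl
    have h1 := I.gEr f g hf hg h (rho R.m (R.cn f k) i)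
      (by have := rho_lt hb hi; omega) (cpr_rho hb hi)
    unfold VV
    rw [← R.gEr f g hf hg h]
    rw [show k - 1 - rho R.m (R.cn f k) i = 2 * R.m - rho R.m (R.cn f k) i by omega,
      rho_rev hb hi] at h1
    exact h1
  gWr := fun f g hf hg h i hi => by
    have hk := R.hk
    have hb := R.bd f hf 0 (by omega)
    have h1 := I.gWr f g hf hg h (rho R.m (R.cn f 0) i)
      (by have := rho_lt hb hi; omega) (cpr_rho hb hi)
    unfold VV
    rw [← R.gWr f g hf hg h]
    rw [show k - 1 - rho R.m (R.cn f 0) i = 2 * R.m - rho R.m (R.cn f 0) i by omega,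
      rho_rev hb hi] at h1
    exact h1

lemma tr_same {r s : P.FSt} (h : R.Rim r) (hs : pE.SameCycle r s) : R.tr s ↔ R.tr r := by
  obtain ⟨n, hn⟩ := hs.exists_nat_pow_eq
  rw [← hn]
  clear hn hs
  induction n with
  | zero => exact Iff.rfl
  | succ n ih =>
    rw [pow_succ', Equiv.Perm.mul_apply]
    exact (R.tr_E _ (Rows.Rim.pow R.toRows h n)).trans ih

theorem closed_of (I : R.toJX0.Closed ψ χ) : R.Closed (R.VV ψ) (SS χ) (NN k χ) where
  tree := fun a b h1 h2 h3 h4 h5 => by
    have hb := Rows.Rim.cyc R.toRows h1 h3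
    have htb := (R.tr_same h1 h3).2 h2
    rw [R.vf_eq h1 h2 (Or.inl ⟨h4, rfl⟩), R.vf_eq hb htb (Or.inr ⟨h5, rfl⟩)]
    exact I.tree a b h1 h2 h3 h4 h5
  cut := fun r h1 h2 h3 => I.cut r h1 h2 h3

/-- **Connectivity can be checked on the numbers of strands.** -/
theorem conn_of (h : R.Conn) : R.toJX0.Conn := by
  intro ψ χ I Cl
  have hk := R.hk
  obtain ⟨Q, hQ⟩ := h _ _ _ (R.inv_of I) (R.closed_of Cl)
  refine ⟨Q, hQ.adj, ?_, ?_⟩
  · intro f x y hf hx hy hp
    obtain ⟨i, hi, rfl⟩ := ex_rho (m := R.m) (c := R.cn f x) hp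
    exact hQ.ver f x i hf hx hi
  · intro f x y hf hx hy hl
    have h1 := I.cell f hf
    have h2 : CellRel (2 * R.m + 1) (tpr R.m (R.cn f)) (tla R.m (R.cn f) (R.sL f) (R.nL f))
        (ψ f) (χ f) := by
      rw [← hk]; exact h1
    exact (R.fac f hf).hor R.hm h2 (q := Q f) (fun x hx i hi => hQ.ver f x i hf (by omega) hi)
      (fun x hx hs => hQ.hor f x hf (by omega) hs) (by omega) (by omega) hl

end RX0

end Pool.Agent.MP42R
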