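import Pool.Agent.MP42.R.RConn
import Pool.Agent.MP42.E.Defs

/-!
# Router layer: junction certificates `JCertE` from numbers of strands

`RE P k` (`k = 2 * m + 1`) is `JCertE P k` with numbers of strands `cn f x` and lanes `sL`, `nL`
over the south and north sides (see `RX`).
-/

set_option autoImplicit false
set_option linter.unusedSectionVars false

namespace Pool.Agent.MP42R

open Pool.Agent.Helper55.UNF Pool.Agent.Helper55.UNF.GridSolid Pool.Agent.MP42G
open Pool.Agent.MP42E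

variable {P : GridSolid}

/-- the strands -/
def prR (m : ℕ) (cn : P.Facet → ℕ → ℕ) (f : P.Facet) : ℕ → ℕ → Bool := tpr m (cn f)

/-- the lanes -/
def laR (m : ℕ) (cn : P.Facet → ℕ → ℕ) (sL nL : P.Facet → ℕ → Ln) (f : P.Facet) : ℕ → ℕ → Ln :=
  tla m (cn f) (sL f) (nL f)

lemma laR_zero (m : ℕ) (cn : P.Facet → ℕ → ℕ) (sL nL : P.Facet → ℕ → Ln) (f : P.Facet) (x : ℕ) :
    laR m cn sL nL f x 0 = sL f x := tla_zero _ _ _ _ _

lemma laR_top {k m : ℕ} (hk : k = 2 * m + 1) (cn : P.Facet → ℕ → ℕ) (sL nL : P.Facet → ℕ → Ln)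
    (f : P.Facet) (x : ℕ) : laR m cn sL nL f x k = nL f x := by
  have h := tla_top m (cn f) (sL f) (nL f) x
  rw [← hk] at h
  exact h

/-- A junction certificate with signs and with numbers of strands. -/
structure RE (P : GridSolid) (k : ℕ) where
  m : ℕ
  hm : 1 ≤ m
  hk : k = 2 * m + 1
  core : P.Facet → Prop
  core_E : ∀ s : P.FSt, IsV s → (core s.stE.facet ↔ core s.facet)
  sg : P.Facet → ℤ
  sg_or : ∀ f, core f → sg f = 1 ∨ sg f = -1 ∨ sg f = 0
  sg_E : ∀ s : P.FSt, IsV s → core s.facet → sg s.stE.facet = sg s.facet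
  can : P.Facet → P.FSt
  can_facet : ∀ f, (can f).facet = f
  can_core : ∀ f, core f → IsV (can f)
  /-- number of strands over the line `x` (only the facets that are not core matter) -/
  cn : P.Facet → ℕ → ℕ
  /-- lanes over the south side -/
  sL : P.Facet → ℕ → Ln
  /-- lanes over the north side -/
  nL : P.Facet → ℕ → Ln
  bal : ∀ f, ¬ core f → ∀ x < k, (cn f (x + 1) : ℤ) = cn f x + vl (sL f x) - vl (nL f x)
  bd : ∀ f, ¬ core f → ∀ x ≤ k, cn f x ≤ m
  free : ∀ f, core f → sg f ≠ 0 → ∀ x < k, (x < 2 ∨ k ≤ x + 2) → sL f x = Ln.z ∧ nL f x = Ln.z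
  gN : ∀ f g, (can f).stN = can g → ∀ x < k, nL f x = sL g x
  gN' : ∀ f, (∀ g, (can f).stN ≠ can g) → ∀ x < k, nL f x = Ln.z
  gS' : ∀ g, (∀ f, (can f).stN ≠ can g) → ∀ x < k, sL g x = Ln.z
  gE : ∀ f g, ¬ core f → (can f).stE = can g → cn f k = cn g 0
  gEr : ∀ f g, ¬ core f → (can f).stE = (can g).r2 → cn f k = cn g k
  gWr : ∀ f g, ¬ core f → (can f).r2.stE = can g → cn f 0 = cn g 0
  gE' : ∀ f, ¬ core f → (∀ g, (can f).stE ≠ can g ∧ (can f).stE ≠ (can g).r2) → cn f k = 0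
  gW' : ∀ f, ¬ core f → (∀ g, (can f).r2.stE ≠ can g ∧ (can f).r2.stE ≠ (can g).r2) → cn f 0 = 0
  L : P.Facet → Prop
  L_core : ∀ f, L f → ¬ core f
  Lcn : ∀ f, L f → ∀ x ≤ k, cn f x = 0
  LsL : ∀ f, L f → ∀ x < k, sL f x = Ln.z ∧ nL f x = Ln.z
  cov : ∀ f, ¬ L f → (core f → sg f = 0) → ∀ x < k, ∀ w : Bool, ∃ z : ℤ,
    (∀ y ∈ Set.uIcc 0 z, ∃ g, ¬ L g ∧ (pN ^ y) (can f) = can g) ∧
    ∃ g, (pN ^ z) (can f) = can g ∧
      ((core g ∧ (sg g ≠ 0 ∨ Opn k can (laR m cn sL nL) (can g) (if w then x else x + 1) ∨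
          Opn k can (laR m cn sL nL) (can g).r2 (k - (if w then x else x + 1)))) ∨
        (¬ core g ∧ 0 < cn g (if w then x else x + 1)))
  nsp : P.Facet → Prop
  nsp_ex : ∀ r : P.FSt, IsV r → core r.facet → sg r.facet ≠ 0 →
    ∃ a, pE.SameCycle r a ∧ ¬ nsp a.facet
  lean : ∀ f, L f → ∃ J : JLean P k core nsp L can (prR m cn) (laR m cn sL nL) f,
    core J.f0 → sg J.f0 ≠ 0
  lcut : ∀ f, L f → ∃ g, core g ∧ sg g ≠ 0

namespace RE

variable {k : ℕ} (R : RE P k)

lemma fac (f : P.Facet) (h : ¬ R.core f) : Fac R.m (R.cn f) (R.sL f) (R.nL f) where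
  bal := fun x hx => R.bal f h x (by have := R.hk; omega)
  bd := fun x hx => R.bd f h x (by have := R.hk; omega)

/-- the strands -/
def pr : P.Facet → ℕ → ℕ → Bool := prR R.m R.cn

/-- the lanes -/
def la : P.Facet → ℕ → ℕ → Ln := laR R.m R.cn R.sL R.nL

lemma la_zero (f : P.Facet) (x : ℕ) : R.la f x 0 = R.sL f x := laR_zero _ _ _ _ _ _

lemma la_top (f : P.Facet) (x : ℕ) : R.la f x k = R.nL f x := laR_top R.hk _ _ _ _ _

/-- **The junction certificate.** -/
def toE : JCertE P k where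
  core := R.core
  core_E := R.core_E
  sg := R.sg
  sg_or := R.sg_or
  sg_E := R.sg_E
  can := R.can
  can_facet := R.can_facet
  can_core := R.can_core
  pr := R.pr
  la := R.la
  ok := fun f h => by
    have h1 := (R.fac f h).ok R.hm
    rw [← R.hk] at h1
    exact h1
  free := fun f hf h x hx h2 => by
    rw [R.la_zero, R.la_top]
    exact R.free f hf h x hx h2
  gN := fun f g h x hx => by rw [R.la_top, R.la_zero]; exact R.gN f g h x hx
  gN' := fun f h x hx => by rw [R.la_top]; exact R.gN' f h x hx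
  gS' := fun g h x hx => by rw [R.la_zero]; exact R.gS' g h x hx
  gE := fun f g hf h y _ => by
    show cpr R.m (R.cn f k) y = cpr R.m (R.cn g 0) y
    rw [R.gE f g hf h]
  gEr := fun f g hf h y hy => by
    have hk := R.hk
    show cpr R.m (R.cn f k) y = cpr R.m (R.cn g k) (k - 1 - y)
    rw [R.gEr f g hf h, show k - 1 - y = 2 * R.m - y by omega, cpr_rev (by omega)]
  gWr := fun f g hf h y hy => by
    have hk := R.hk
    show cpr R.m (R.cn f 0) y = cpr R.m (R.cn g 0) (k - 1 - y)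
    rw [R.gWr f g hf h, show k - 1 - y = 2 * R.m - y by omega, cpr_rev (by omega)]
  gE' := fun f hf h y _ => by
    show cpr R.m (R.cn f k) y = false
    rw [R.gE' f hf h, cpr_zero]
  gW' := fun f hf h y _ => by
    show cpr R.m (R.cn f 0) y = false
    rw [R.gW' f hf h, cpr_zero]
  L := R.L
  L_core := R.L_core
  Lpr := fun f h x y hx _ => by
    show cpr R.m (R.cn f x) y = false
    rw [R.Lcn f h x hx, cpr_zero]
  Lla := fun f h x y hx hy => by
    have hk := R.hk
    have h1 := (R.fac f (R.L_core f h)).tla_eq R.hm (x := x) (by omega) y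
    show tla R.m (R.cn f) (R.sL f) (R.nL f) x y = Ln.z
    rw [h1, (R.LsL f h x hx).1, (R.LsL f h x hx).2]
    rfl
  cov := fun f hf h0 x hx w => by
    obtain ⟨z, h1, g, h2, h3⟩ := R.cov f hf h0 x hx w
    refine ⟨z, h1, g, h2, ?_⟩
    rcases h3 with h3 | ⟨g1, g2⟩
    · exact Or.inl h3
    · refine Or.inr ⟨g1, ?_⟩
      have hk := R.hk
      have h3 := (ex_cpr (R.bd g g1 (if w then x else x + 1) (by split_ifs <;> omega))).2 g2
      obtain ⟨y, hy, h4⟩ := h3
      exact ⟨y, by omega, h4⟩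
  nsp := R.nsp
  nsp_ex := R.nsp_ex
  lean := R.lean
  lcut := R.lcut

/-! ### The values -/

/-- the values are invariant in the junctions -/
structure Inv (V : P.Facet → ℕ → ℕ → Prop) (S N : P.Facet → ℕ → Prop) : Prop where
  cell : ∀ f, ¬ R.core f → ∀ x < k, ∀ i < R.cn f x + en (R.sL f x) + es (R.nL f x),
    (inR (R.sL f x) (R.cn f x) (V f x) (S f x) (N f x) i ↔
      outR (R.sL f x) (R.cn f (x + 1)) (V f (x + 1)) (S f x) (N f x) i)
  gN : ∀ f g, (R.can f).stN = R.can g → ∀ x < k, R.nL f x ≠ Ln.z → (N f x ↔ S g x)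
  gE : ∀ f g, ¬ R.core f → (R.can f).stE = R.can g → ∀ i < R.cn f k, (V f k i ↔ V g 0 i)
  gEr : ∀ f g, ¬ R.core f → (R.can f).stE = (R.can g).r2 → ∀ i < R.cn f k,
    (V f k i ↔ V g k (R.cn f k - 1 - i))
  gWr : ∀ f g, ¬ R.core f → (R.can f).r2.stE = R.can g → ∀ i < R.cn f 0,
    (V f 0 i ↔ V g 0 (R.cn f 0 - 1 - i))

open Classical in
/-- the lane over the south side of a state -/
noncomputable def wd (r : P.FSt) (x : ℕ) : Ln :=
  if R.can r.facet = r then R.sL r.facet x else R.nL r.facet (k - 1 - x)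

open Classical in
/-- the value of the lane over the south side of a state -/
noncomputable def fv (S N : P.Facet → ℕ → Prop) (r : P.FSt) (x : ℕ) : Prop :=
  if R.can r.facet = r then S r.facet x else N r.facet (k - 1 - x)

lemma wd_eq (r : P.FSt) (x : ℕ) : R.toE.wd r x = R.wd r x := by
  unfold wd
  show (if R.can r.facet = r then R.la r.facet x 0 else R.la r.facet (k - 1 - x) k) = _
  rw [R.la_zero, R.la_top]

/-- matched feet have the same value, and so have the two feet that are not matched -/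
structure Closed (S N : P.Facet → ℕ → Prop) : Prop where
  matched : ∀ r x q', IsV r → R.core r.facet → x < k → R.toE.Matched (r, x) q' →
    (R.fv S N r x ↔ R.fv S N q'.1 q'.2)
  eq2 : ∀ r x r' x', IsV r → R.core r.facet → pE.SameCycle r r' → x < k → x' < k →
    R.toE.Unmatched (r, x) → R.toE.Unmatched (r', x') → (R.fv S N r x ↔ R.fv S N r' x')

/-- constant on the junctions -/
structure ConstJ (V : P.Facet → ℕ → ℕ → Prop) (S N : P.Facet → ℕ → Prop) (Q : P.FSt → Prop) :
    Prop where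
  fac : ∀ s, ¬ R.core s.facet → (Q s ↔ Q (R.can s.facet))
  adj : ∀ s, ¬ R.core s.facet → ¬ R.core s.stE.facet → (Q s ↔ Q s.stE)
  rim : ∀ r, IsV r → R.core r.facet → (Q r ↔ Q r.stE)
  link : ∀ r, IsV r → R.core r.facet → (Q r ↔ Q r.r2.stN)
  feet : ∀ r x, IsV r → R.core r.facet → x < k → R.wd r x ≠ Ln.z → (R.fv S N r x ↔ Q r)
  ver : ∀ f x i, ¬ R.core f → x ≤ k → i < R.cn f x → (V f x i ↔ Q (R.can f))
  hor : ∀ f x, ¬ R.core f → x < k → R.sL f x ≠ Ln.z → (S f x ↔ Q (R.can f))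

/-- the closed-up junctions are closed curves -/
def Conn : Prop := ∀ V S N, R.Inv V S N → R.Closed S N → ∃ Q, R.ConstJ V S N Q

/-- the values of the strands -/
def VV (ψ : P.Facet → ℕ → ℕ → Prop) (f : P.Facet) (x i : ℕ) : Prop :=
  ψ f x (rho R.m (R.cn f x) i)

variable {ψ χ : P.Facet → ℕ → ℕ → Prop}

theorem inv_of (I : R.toE.Inv ψ χ) : R.Inv (R.VV ψ) (SS χ) (NN k χ) where
  cell := fun f hf x hx i hi => by
    have hk := R.hk
    have h1 := I.cell f hf
    have h2 : CellRel (2 * R.m + 1) (tpr R.m (R.cn f)) (tla R.m (R.cn f) (R.sL f) (R.nL f))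
        (ψ f) (χ f) := by
      rw [← hk]; exact h1
    have h3 := (R.fac f hf).rel R.hm h2 (x := x) (by omega) i hi
    unfold inV outV at h3
    unfold inR outR VV SS NN
    rw [← hk] at h3
    exact h3
  gN := fun f g h x hx hz => by
    have h1 := I.gN f g h x hx (by
      show R.la f x k ≠ Ln.z
      rw [R.la_top]; exact hz)
    exact h1
  gE := fun f g hf h i hi => by
    have hk := R.hk
    have hb := R.bd f hf k le_rfl
    have h1 := I.gE f g hf h (rho R.m (R.cn f k) i)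
      (by have := rho_lt hb hi; omega) (cpr_rho hb hi)
    unfold VV
    rw [← R.gE f g hf h]
    exact h1
  gEr := fun f g hf h i hi => by
    have hk := R.hk
    have hb := R.bd f hf k le_rfl
    have h1 := I.gEr f g hf h (rho R.m (R.cn f k) i)
      (by have := rho_lt hb hi; omega) (cpr_rho hb hi)
    unfold VV
    rw [← R.gEr f g hf h]
    rw [show k - 1 - rho R.m (R.cn f k) i = 2 * R.m - rho R.m (R.cn f k) i by omega,
      rho_rev hb hi] at h1
    exact h1
  gWr := fun f g hf h i hi => by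
    have hk := R.hk
    have hb := R.bd f hf 0 (by omega)
    have h1 := I.gWr f g hf h (rho R.m (R.cn f 0) i)
      (by have := rho_lt hb hi; omega) (cpr_rho hb hi)
    unfold VV
    rw [← R.gWr f g hf h]
    rw [show k - 1 - rho R.m (R.cn f 0) i = 2 * R.m - rho R.m (R.cn f 0) i by omega,
      rho_rev hb hi] at h1
    exact h1

/-- **Connectivity can be checked on the numbers of strands.** -/
theorem conn_of (h : R.Conn) : R.toE.Conn := by
  intro ψ χ I E2
  have hk := R.hk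
  have hC : R.Closed (SS χ) (NN k χ) :=
    ⟨fun r x q' h1 h2 h3 h4 => I.matched r x q' h1 h2 h3 h4,
      fun r x r' x' h1 h2 h3 h4 h5 h6 h7 => E2 r x r' x' h1 h2 h3 h4 h5 h6 h7⟩
  obtain ⟨Q, hQ⟩ := h _ _ _ (R.inv_of I) hC
  refine ⟨Q, hQ.fac, hQ.adj, hQ.rim, hQ.link, ?_, ?_, ?_⟩
  · intro r x h1 h2 h3 h4
    rw [R.wd_eq] at h4
    exact hQ.feet r x h1 h2 h3 h4
  · intro f x y hf hx hy hp
    obtain ⟨i, hi, rfl⟩ := ex_rho (m := R.m) (c := R.cn f x) hp
    exact hQ.ver f x i hf hx hi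
  · intro f x y hf hx hy hl
    have h1 := I.cell f hf
    have h2 : CellRel (2 * R.m + 1) (tpr R.m (R.cn f)) (tla R.m (R.cn f) (R.sL f) (R.nL f))
        (ψ f) (χ f) := by
      rw [← hk]; exact h1
    exact (R.fac f hf).hor R.hm h2 (q := Q (R.can f))
      (fun x hx i hi => hQ.ver f x i hf (by omega) hi)
      (fun x hx hs => hQ.hor f x hf (by omega) hs) (by omega) (by omega) hl

end RE

end Pool.Agent.MP42R
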