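import Pool.Agent.MP42.R.Fac
import Pool.Agent.MP42.X.Defs

/-!
# Router layer: junction certificates `JX` from numbers of strands

`RX P k` (`k = 2 * m + 1`) is `JX P k` with `cn f x` = number of strands that cross the line `x` of
the facet `f`, `sL f x`, `nL f x` = lanes over the south and north side in column `x`.  The only
local condition is the balance `cn f (x + 1) = cn f x + vl (sL f x) - vl (nL f x)` (and
`cn f x ≤ m`).  The strands are connected in the planar way (`inV`, `outV`).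
-/

set_option autoImplicit false
set_option linter.unusedSectionVars false

namespace Pool.Agent.MP42R

open Pool.Agent.Helper55.UNF Pool.Agent.Helper55.UNF.GridSolid Pool.Agent.MP42G
open Pool.Agent.MP42H Pool.Agent.MP42X

variable {P : GridSolid}

open Classical in
/-- lane over the north side of the state `s` -/
noncomputable def wnR (k : ℕ) (can : P.Facet → P.FSt) (sL nL : P.Facet → ℕ → Ln) (s : P.FSt)
    (x : ℕ) : Ln :=
  if can s.facet = s then nL s.facet x
  else if can s.facet = s.r2 then sL s.facet (k - 1 - x) else Ln.z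

open Classical in
/-- number of strands over the north side of the state `s`, if the frame of its facet is turned by
a right angle -/
noncomputable def woR (k : ℕ) (can : P.Facet → P.FSt) (cn : P.Facet → ℕ → ℕ) (s : P.FSt) : ℕ :=
  if can s.facet = s.rL then cn s.facet k
  else if can s.facet = s.rR then cn s.facet 0 else 0

open Classical in
/-- A junction certificate with numbers of strands, without coverage. -/
structure RX0 (P : GridSolid) (k : ℕ) extends Rows P where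
  m : ℕ
  hm : 1 ≤ m
  hk : k = 2 * m + 1
  can : P.Facet → P.FSt
  can_facet : ∀ f, (can f).facet = f
  /-- number of strands over the line `x` -/
  cn : P.Facet → ℕ → ℕ
  /-- lanes over the south side -/
  sL : P.Facet → ℕ → Ln
  /-- lanes over the north side -/
  nL : P.Facet → ℕ → Ln
  bal : ∀ f, rw f = 0 → ∀ x < k, (cn f (x + 1) : ℤ) = cn f x + vl (sL f x) - vl (nL f x)
  bd : ∀ f, rw f = 0 → ∀ x ≤ k, cn f x ≤ m
  gN : ∀ f g, rw f = 0 → rw g = 0 → (can f).stN = can g → ∀ x < k, nL f x = sL g x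
  gN' : ∀ f, rw f = 0 → rw (can f).stN.facet = 0 → (∀ g, (can f).stN ≠ can g) →
    ∀ x < k, nL f x = Ln.z
  gS' : ∀ g, rw g = 0 → rw (can g).r2.stN.facet = 0 → (∀ f, (can f).stN ≠ can g) →
    ∀ x < k, sL g x = Ln.z
  gE : ∀ f g, rw f = 0 → rw g = 0 → (can f).stE = can g → cn f k = cn g 0
  gEr : ∀ f g, rw f = 0 → rw g = 0 → (can f).stE = (can g).r2 → cn f k = cn g k
  gWr : ∀ f g, rw f = 0 → rw g = 0 → (can f).r2.stE = can g → cn f 0 = cn g 0
  gE' : ∀ f, rw f = 0 → rw (can f).stE.facet = 0 →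
    (∀ g, (can f).stE ≠ can g ∧ (can f).stE ≠ (can g).r2) → cn f k = 0
  gW' : ∀ f, rw f = 0 → rw (can f).r2.stE.facet = 0 →
    (∀ g, (can f).r2.stE ≠ can g ∧ (can f).r2.stE ≠ (can g).r2) → cn f 0 = 0
  tr : P.FSt → Prop
  tr_E : ∀ r, toRows.Rim r → (tr r.stE ↔ tr r)
  tr_far : ∀ r, toRows.Rim r → (tr (Rows.far r) ↔ tr r)
  ac : P.FSt → Prop
  ac_E : ∀ r, toRows.Rim r → (ac r.stE ↔ ac r)
  ac_tr : ∀ r, toRows.Rim r → tr r → ac r
  ac_far : ∀ r, toRows.Rim r → ac r ∨ ac (Rows.far r)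
  ng : P.FSt → Bool
  ng_E : ∀ r, toRows.Rim r → ng r.stE = ng r
  ng_far : ∀ r, toRows.Rim r → ng (Rows.far r) = ng r
  z1 : P.FSt → Bool
  z1_E : ∀ r, toRows.Rim r → z1 r.stE = z1 r
  z1_far : ∀ r, toRows.Rim r → z1 (Rows.far r) = z1 r
  z2 : P.FSt → Bool
  z2_E : ∀ r, toRows.Rim r → z2 r.stE = z2 r
  z2_far : ∀ r, toRows.Rim r → z2 (Rows.far r) = z2 r
  z12 : ∀ r, toRows.Rim r → z1 r = true → z2 r = true
  fa : P.FSt → Prop
  fb : P.FSt → Prop
  fa_ac : ∀ r, toRows.Rim r → fa r → ac r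
  fa_ex : ∀ r, toRows.Rim r → ac r → ∃! a, pE.SameCycle r a ∧ fa a
  fb_ex : ∀ r, toRows.Rim r → tr r → ∃! b, pE.SameCycle r b ∧ fb b
  arc : ∀ r, toRows.Rim r → tr r → fa r → ∀ n ≤ 2, ¬ fb ((dir (ng r) ^ n) r)
  rn : ∀ r, toRows.Rim r → ∀ x < k, wnR k can sL nL (pN.symm r) x =
    if tr r then
      (if ((fa r ∧ z1 r = false) ∨ (fb r ∧ z2 r = false)) ∧ x = fcol k (ng r) then flet (ng r)
      else Ln.z)
    else (if fa r ∧ x = 0 then Ln.n else if fa r.stE ∧ x + 1 = k then Ln.s else Ln.z)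
  ro : ∀ r, toRows.Rim r → woR k can cn (pN.symm r) =
    if tr r ∧ ((fa r ∧ z1 r = true) ∨ (fb r ∧ z2 r = true)) then 1 else 0

namespace RX0

variable {k : ℕ} (R : RX0 P k)

/-- the strands -/
def pr (f : P.Facet) : ℕ → ℕ → Bool := tpr R.m (R.cn f)

/-- the lanes -/
def la (f : P.Facet) : ℕ → ℕ → Ln := tla R.m (R.cn f) (R.sL f) (R.nL f)

lemma fac (f : P.Facet) (h : R.rw f = 0) : Fac R.m (R.cn f) (R.sL f) (R.nL f) where
  bal := fun x hx => R.bal f h x (by have := R.hk; omega)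
  bd := fun x hx => R.bd f h x (by have := R.hk; omega)

lemma la_zero (f : P.Facet) (x : ℕ) : R.la f x 0 = R.sL f x := tla_zero _ _ _ _ _

lemma la_top (f : P.Facet) (x : ℕ) : R.la f x k = R.nL f x := by
  have h := tla_top R.m (R.cn f) (R.sL f) (R.nL f) x
  rw [← R.hk] at h
  exact h

lemma wn_eq (s : P.FSt) (x : ℕ) : wn k R.can R.la s x = wnR k R.can R.sL R.nL s x := by
  unfold wn wnR
  rw [R.la_top, R.la_zero]

lemma wo_eq (s : P.FSt) {y : ℕ} (hy : y < k) :
    wo k R.can R.pr s y = cpr R.m (woR k R.can R.cn s) y := by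
  have hk := R.hk
  unfold wo woR
  split_ifs with h1 h2
  · rfl
  · show cpr R.m (R.cn s.facet 0) (k - 1 - y) = _
    rw [show k - 1 - y = 2 * R.m - y by omega]
    exact cpr_rev (by omega)
  · exact (cpr_zero _ _).symm

/-- **The junction certificate.** -/
def toJX0 : JX0 P k where
  toRows := R.toRows
  m := R.m
  hm := R.hm
  hk := R.hk
  can := R.can
  can_facet := R.can_facet
  pr := R.pr
  la := R.la
  ok := fun f h => by
    have h1 := (R.fac f h).ok R.hm
    rw [← R.hk] at h1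
    exact h1
  gN := fun f g hf hg h x hx => by rw [R.la_top, R.la_zero]; exact R.gN f g hf hg h x hx
  gN' := fun f hf h1 h x hx => by rw [R.la_top]; exact R.gN' f hf h1 h x hx
  gS' := fun g hg h1 h x hx => by rw [R.la_zero]; exact R.gS' g hg h1 h x hx
  gE := fun f g hf hg h y _ => by
    show cpr R.m (R.cn f k) y = cpr R.m (R.cn g 0) y
    rw [R.gE f g hf hg h]
  gEr := fun f g hf hg h y hy => by
    have hk := R.hk
    show cpr R.m (R.cn f k) y = cpr R.m (R.cn g k) (k - 1 - y)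
    rw [R.gEr f g hf hg h, show k - 1 - y = 2 * R.m - y by omega, cpr_rev (by omega)]
  gWr := fun f g hf hg h y hy => by
    have hk := R.hk
    show cpr R.m (R.cn f 0) y = cpr R.m (R.cn g 0) (k - 1 - y)
    rw [R.gWr f g hf hg h, show k - 1 - y = 2 * R.m - y by omega, cpr_rev (by omega)]
  gE' := fun f hf h1 h y _ => by
    show cpr R.m (R.cn f k) y = false
    rw [R.gE' f hf h1 h, cpr_zero]
  gW' := fun f hf h1 h y _ => by
    show cpr R.m (R.cn f 0) y = false
    rw [R.gW' f hf h1 h, cpr_zero]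
  tr := R.tr
  tr_E := R.tr_E
  tr_far := R.tr_far
  ac := R.ac
  ac_E := R.ac_E
  ac_tr := R.ac_tr
  ac_far := R.ac_far
  ng := R.ng
  ng_E := R.ng_E
  ng_far := R.ng_far
  z1 := R.z1
  z1_E := R.z1_E
  z1_far := R.z1_far
  z2 := R.z2
  z2_E := R.z2_E
  z2_far := R.z2_far
  z12 := R.z12
  fa := R.fa
  fb := R.fb
  fa_ac := R.fa_ac
  fa_ex := R.fa_ex
  fb_ex := R.fb_ex
  arc := R.arc
  rn := fun r h x hx => by rw [R.wn_eq]; exact R.rn r h x hx
  ro := fun r h y hy => by
    rw [R.wo_eq _ hy, R.ro r h]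
    split_ifs with h1
    · rw [cpr_one]
      simp [h1]
    · rw [cpr_zero]
      symm
      rw [decide_eq_false_iff_not]
      exact fun h2 => h1 ⟨h2.1, h2.2.1⟩

end RX0

/-- A junction certificate with numbers of strands. -/
structure RX (P : GridSolid) (k : ℕ) extends RX0 P k where
  cov : ∀ f, rw f = 0 → ∀ x < k, ∀ w : Bool, ∃ z : ℤ,
    (∀ y ∈ Set.uIcc 0 z, y ≠ z → ∃ g, rw g = 0 ∧ (pN ^ y) (can f) = can g) ∧
    ((∃ g, rw g = 0 ∧ (pN ^ z) (can f) = can g ∧ 0 < cn g (if w then x else x + 1)) ∨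
     (0 < z ∧ toRows.Rim ((pN ^ z) (can f)) ∧ Lit tr ng z1 z2 fa fb ((pN ^ z) (can f))) ∨
     (z < 0 ∧ toRows.Rim ((pN ^ z) (can f)).r2 ∧ Lit tr ng z1 z2 fa fb ((pN ^ z) (can f)).r2))

/-- **The junction certificate.** -/
def RX.toJX {k : ℕ} (R : RX P k) : JX P k where
  toJX0 := R.toRX0.toJX0
  cov := fun f hf x hx w => by
    obtain ⟨z, h1, h2⟩ := R.cov f hf x hx w
    refine ⟨z, h1, ?_⟩
    rcases h2 with ⟨g, g1, g2, g3⟩ | h2
    · refine Or.inl ⟨g, g1, g2, ?_⟩
      have hk := R.hk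
      have h3 := (ex_cpr (R.bd g g1 (if w then x else x + 1) (by split_ifs <;> omega))).2 g3
      obtain ⟨y, hy, h4⟩ := h3
      exact ⟨y, by omega, h4⟩
    · exact Or.inr h2

end Pool.Agent.MP42R
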